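import Pool.Agent.Helper29.HP.St.RatSim
import Pool.Agent.Helper29.HP.St.Psi

set_option autoImplicit false
set_option linter.unusedSectionVars false
set_option linter.unusedVariables false
set_option linter.unusedSimpArgs false

/-!
Project VE, piece BIR.  If the quadric surface bundle of the projection of a cubic from its plane
is similar, over `C(x, y)`, to another bundle `N'` of quaternary quadratic forms over the plane then
the generic point of the cubic gives a generic point of the other bundle.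
-/

namespace Pool.Agent.Helper64.HA

open MvPolynomial Module Pool.Agent.Helper16 Pool.Agent.Helper29.HP

/-- a complex quaternary form is isotropic -/
theorem iso_complex (N : Matrix (Fin 4) (Fin 4) ℂ) :
    ∃ w : Fin 4 → ℂ, w ≠ 0 ∧ w ⬝ᵥ N.mulVec w = 0 := by
  by_cases h : N 1 1 = 0
  · refine ⟨Pi.single 1 1, ?_, ?_⟩
    · intro h0
      have := congrFun h0 1
      simp at this
    · rw [single_one_dotProduct, Matrix.mulVec_single_one, Matrix.col_apply]; exact h
  · obtain ⟨t, ht⟩ := IsAlgClosed.exists_root (Polynomial.C (N 1 1) * Polynomial.X ^ 2 +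
      Polynomial.C (N 0 1 + N 1 0) * Polynomial.X + Polynomial.C (N 0 0)) (by
        rw [Polynomial.degree_quadratic h]; norm_num)
    refine ⟨![1, t, 0, 0], ?_, ?_⟩
    · intro h0
      have := congrFun h0 0
      simp at this
    · rw [Polynomial.IsRoot.def] at ht
      simp only [Polynomial.eval_add, Polynomial.eval_mul, Polynomial.eval_C, Polynomial.eval_pow,
        Polynomial.eval_X] at ht
      simp [dotProduct, Matrix.mulVec, Fin.sum_univ_four]
      linear_combination ht

/-- a curve on the quadric surface through a given point, leaving the plane at infinity -/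
theorem iso_curve {c : Cub (I6 → ℂ)} {z : Fin 3 → ℂ} (hN : (c.Nm z).det ≠ 0) {w : Fin 4 → ℂ}
    (hw : w ≠ 0) (hww : c.nf z w w = 0) : ∃ x : Fin 4 → Polynomial ℂ,
      (∀ s : ℂ, c.nf z (fun i => (x i).eval s) (fun i => (x i).eval s) = 0) ∧
      (∃ κ : ℂ, κ ≠ 0 ∧ (fun i => (x i).eval 0) = κ • w) ∧ x 3 ≠ 0 := by
  obtain ⟨v', hv', hv3, hvw⟩ := Cub.exists_good hN hw hww
  obtain ⟨r1, hr1⟩ : ∃ r : Fin 4 → ℂ, c.nf z r r - 2 * c.nf z v' r * r 3 ≠ 0 := by
    by_contra hcon
    push Not at hcon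
    have hpol : ∀ a b : Fin 4 → ℂ, c.nf z a b = c.nf z v' a * b 3 + c.nf z v' b * a 3 := by
      intro a b
      have h1 := hcon (a + b)
      have h2 := hcon a
      have h3 := hcon b
      simp only [map_add, LinearMap.add_apply, Pi.add_apply, c.nf_symm z b a] at h1
      linear_combination (1 / 2) * h1 - (1 / 2) * h2 - (1 / 2) * h3
    let g : (Fin 4 → ℂ) →ₗ[ℂ] (ℂ × ℂ) := (c.nf z v').prod (LinearMap.proj 3)
    obtain ⟨a, ha, ha0⟩ : ∃ a, g a = 0 ∧ a ≠ 0 := by
      by_contra hc
      push Not at hc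
      have hU : Function.Injective g := (injective_iff_map_eq_zero g).mpr hc
      have := LinearMap.finrank_le_finrank_of_injective hU
      simp at this
    have ha1 : c.nf z v' a = 0 := congrArg Prod.fst ha
    have ha3 : a 3 = 0 := congrArg Prod.snd ha
    apply ha0
    refine Matrix.eq_zero_of_mulVec_eq_zero hN ?_
    funext i
    rw [← Cub.nf_single_left, c.nf_symm, hpol, ha1, ha3]
    simp
  let r : Fin 4 → Polynomial ℂ := fun i =>
    (1 - Polynomial.X) * Polynomial.C (w i - v' i) + Polynomial.X * Polynomial.C (r1 i)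
  let zP : Fin 3 → Polynomial ℂ := fun i => Polynomial.C (z i)
  let vP : Fin 4 → Polynomial ℂ := fun i => Polynomial.C (v' i)
  let x : Fin 4 → Polynomial ℂ := c.nf zP r r • vP - (2 * c.nf zP vP r) • r
  have hev : ∀ (s : ℂ) (g : Polynomial ℂ), (Polynomial.aeval s : Polynomial ℂ →ₐ[ℂ] ℂ) g =
      g.eval s := by
    intro s g
    rw [Polynomial.coe_aeval_eq_eval]
  have hr : ∀ (s : ℂ) (i : Fin 4), (Polynomial.aeval s : Polynomial ℂ →ₐ[ℂ] ℂ) (r i) =
      (1 - s) * (w i - v' i) + s * r1 i := by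
    intro s i
    rw [hev]
    simp [r]
    ring
  have hzP : ∀ s : ℂ, (fun i => (Polynomial.aeval s : Polynomial ℂ →ₐ[ℂ] ℂ) (zP i)) = z := by
    intro s; funext i; rw [hev]; simp [zP]
  have hvP : ∀ s : ℂ, (fun i => (Polynomial.aeval s : Polynomial ℂ →ₐ[ℂ] ℂ) (vP i)) = v' := by
    intro s; funext i; rw [hev]; simp [vP]
  let rs : ℂ → Fin 4 → ℂ := fun s i => (1 - s) * (w i - v' i) + s * r1 i
  have hrs : ∀ s : ℂ, (fun i => (Polynomial.aeval s : Polynomial ℂ →ₐ[ℂ] ℂ) (r i)) = rs s := by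
    intro s; funext i; rw [hr]
  have hx : ∀ s : ℂ, (fun i => (Polynomial.aeval s : Polynomial ℂ →ₐ[ℂ] ℂ) (x i)) =
      c.nf z (rs s) (rs s) • v' - (2 * c.nf z v' (rs s)) • rs s := by
    intro s
    funext i
    simp only [x, Pi.sub_apply, Pi.smul_apply, smul_eq_mul, map_sub, map_mul, Cub.map_nf, hzP,
      hvP, hrs]
    have h1 := congrFun (hvP s) i
    have h2 := congrFun (hrs s) i
    rw [h1, h2]
    simp
  have hxe : ∀ s : ℂ, (fun i => (x i).eval s) =
      c.nf z (rs s) (rs s) • v' - (2 * c.nf z v' (rs s)) • rs s := by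
    intro s
    rw [← hx]
    funext i
    rw [hev]
  have hrs0 : rs 0 = w - v' := by
    funext i; simp [rs]
  have hrs1 : rs 1 = r1 := by
    funext i; simp [rs]
  refine ⟨x, ?_, ⟨-(2 * c.nf z v' w), neg_ne_zero.mpr (mul_ne_zero two_ne_zero hvw), ?_⟩, ?_⟩
  · intro s
    rw [hxe]
    simp only [map_sub, map_smul, LinearMap.sub_apply, LinearMap.smul_apply, smul_eq_mul, hv',
      c.nf_symm z (rs s) v']
    ring
  · rw [hxe, hrs0]
    simp only [map_sub, LinearMap.sub_apply, hv', hww, c.nf_symm z w v']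
    funext i
    simp only [Pi.sub_apply, Pi.smul_apply, smul_eq_mul]
    ring
  · intro h0
    have h1 := congrFun (hxe 1) 3
    rw [h0, hrs1] at h1
    simp only [Polynomial.eval_zero, Pi.sub_apply, Pi.smul_apply, smul_eq_mul, hv3, mul_one] at h1
    exact hr1 h1.symm

/-- clearing denominators -/
theorem clear_sim (N N' : Matrix (Fin 4) (Fin 4) P3) (Ψ : Matrix (Fin 4) (Fin 4) KK) (ν : KK)
    (hΨ : Ψ.det ≠ 0) (hν : ν ≠ 0) (h : Ψ.transpose * N.map psiK * Ψ = ν • N'.map psiK) :
    ∃ (G : Matrix (Fin 4) (Fin 4) P2) (e1 e2 : P2), G.det ≠ 0 ∧ e1 ≠ 0 ∧ e2 ≠ 0 ∧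
      e1 • (G.transpose * N.map dh2 * G) = e2 • N'.map dh2 := by
  classical
  obtain ⟨d, g, hd, hg⟩ := clear_family (fun ij : Fin 4 × Fin 4 => Ψ ij.1 ij.2)
  obtain ⟨b, a, hb, hab⟩ := clear_KK ν
  have ha : a ≠ 0 := by
    rintro rfl
    rw [map_zero] at hab
    rcases mul_eq_zero.mp hab with h | h
    · exact theta_ne_zero hb h
    · exact hν h
  let G : Matrix (Fin 4) (Fin 4) P2 := Matrix.of fun i j => g (i, j)
  have hG : G.map theta = theta d • Ψ := by
    ext i j
    simp only [G, Matrix.map_apply, Matrix.of_apply, Matrix.smul_apply, smul_eq_mul]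
    exact (hg (i, j)).symm
  have hpsi : ∀ (A : Matrix (Fin 4) (Fin 4) P3), A.map psiK = (A.map dh2).map theta := by
    intro A
    ext i j
    simp only [Matrix.map_apply, psiK_eq]
  refine ⟨G, b, a * d ^ 2, ?_, hb, mul_ne_zero ha (pow_ne_zero 2 hd), ?_⟩
  · intro h0
    have h1 : theta G.det = (theta d) ^ 4 * Ψ.det := by
      have h2 : theta G.det = (G.map theta).det := AlgHom.map_det theta G
      rw [h2, hG, Matrix.det_smul]
      simp
    rw [h0, map_zero] at h1
    exact mul_ne_zero (pow_ne_zero 4 (theta_ne_zero hd)) hΨ h1.symm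
  · refine Matrix.ext fun i j => ?_
    apply theta_injective
    have h1 : (G.transpose * N.map dh2 * G).map theta =
        (theta d) ^ 2 • (ν • N'.map psiK) := by
      have h2 : (G.transpose * N.map dh2 * G).map theta =
          (G.map theta).transpose * (N.map dh2).map theta * G.map theta := by
        have e1 : ∀ A B : Matrix (Fin 4) (Fin 4) P2, (A * B).map theta = A.map theta * B.map theta :=
          fun A B => Matrix.map_mul
        rw [e1, e1, Matrix.transpose_map]
      rw [h2, hG, ← hpsi, Matrix.transpose_smul, Matrix.smul_mul, Matrix.smul_mul,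
        Matrix.mul_smul, smul_smul, h, pow_two]
    have h3 := congrFun (congrFun h1 i) j
    rw [Matrix.map_apply, Matrix.smul_apply, Matrix.smul_apply, Matrix.map_apply, smul_eq_mul,
      smul_eq_mul] at h3
    rw [Matrix.smul_apply, Matrix.smul_apply, smul_eq_mul, smul_eq_mul, map_mul, h3, map_mul,
      map_mul, map_pow, Matrix.map_apply, ← psiK_eq, ← hab]
    ring

section

variable {c : Cub (I6 → ℂ)} {N' : Matrix (Fin 4) (Fin 4) P3} {G : Matrix (Fin 4) (Fin 4) P2}
  {e1 e2 : P2}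

theorem eval_sim
    (h : e1 • (G.transpose * (c.Nm (X : Fin 3 → P3)).map dh2 * G) = e2 • N'.map dh2)
    {S : Type*} [CommRing S] [Algebra ℂ S] (t : Fin 2 → S) (y y' : Fin 4 → S) :
    aeval t e1 * c.nf (ZZ t) ((G.map (aeval t)).mulVec y) ((G.map (aeval t)).mulVec y') =
      aeval t e2 * (y ⬝ᵥ (N'.map (aeval (ZZ t))).mulVec y') := by
  have h1 : aeval t e1 • ((G.map (aeval t)).transpose * c.Nm (ZZ t) * G.map (aeval t)) =
      aeval t e2 • N'.map (aeval (ZZ t)) := by
    have h2 := congrArg (fun A : Matrix (Fin 4) (Fin 4) P2 => A.map (aeval t)) h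
    ext i j
    have h3 := congrFun (congrFun h2 i) j
    simp only [Matrix.map_apply, Matrix.smul_apply, smul_eq_mul, map_mul] at h3
    simp only [Matrix.smul_apply, smul_eq_mul]
    rw [← Nm_map_aeval, ← map_dh2, ← map_dh2, Matrix.map_apply (M := N'.map dh2),
      Matrix.map_apply]
    refine Eq.trans ?_ h3
    congr 1
    simp only [Matrix.mul_apply, Matrix.transpose_apply, map_sum, map_mul, Matrix.map_apply]
  rw [Cub.nf_eq_dot]
  have h4 := congrArg (fun A : Matrix (Fin 4) (Fin 4) S => y ⬝ᵥ A.mulVec y') h1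
  simp only [Matrix.smul_mulVec, dotProduct_smul, smul_eq_mul] at h4
  rw [← h4]
  congr 1
  rw [Matrix.mul_assoc, ← Matrix.mulVec_mulVec, ← Matrix.mulVec_mulVec, Matrix.dotProduct_mulVec y,
    Matrix.vecMul_transpose]

theorem map_adj_mulVec {A B : Type*} [CommRing A] [CommRing B] [Algebra ℂ A] [Algebra ℂ B]
    (φ : A →ₐ[ℂ] B) (M : Matrix (Fin 4) (Fin 4) A) (v : Fin 4 → A) (i : Fin 4) :
    φ ((M.adjugate.mulVec v) i) = ((M.map φ).adjugate.mulVec (fun k => φ (v k))) i := by
  have h1 : (M.map φ).adjugate = M.adjugate.map φ :=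
    (RingHom.map_adjugate (φ : A →+* B) M).symm
  rw [h1]
  exact RingHom.map_mulVec (φ : A →+* B) M.adjugate v i

/-- **BIR**, polynomial form -/
theorem bir_aux (hP : c.Iso P0)
    (h : e1 • (G.transpose * (c.Nm (X : Fin 3 → P3)).map dh2 * G) = e2 • N'.map dh2)
    (hG : G.det ≠ 0) (he1 : e1 ≠ 0) (he2 : e2 ≠ 0) (H : P3) (hH : dh2 H = e1 * e2 * G.det)
    {K : Type} [Field K] [Algebra ℂ K] (x : I6 → K) (hx : c.Gen x) :
    ∃ (z : Fin 3 → K) (y : Fin 4 → K), z 0 = 1 ∧ y ≠ 0 ∧
      y ⬝ᵥ (N'.map (aeval z)).mulVec y = 0 ∧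
      (∀ L : IntermediateField ℂ K, (∀ i, z i ∈ L) → (∃ σ : K, σ ≠ 0 ∧ ∀ i, σ * y i ∈ L) →
        ∃ τ : K, τ ≠ 0 ∧ ∀ m, τ * x m ∈ L) ∧
      ∀ (F : MvPolynomial (Fin 3 ⊕ Fin 4) ℂ) (m : ℕ), (∀ (R : Type) [CommRing R] [Algebra ℂ R]
        (z : Fin 3 → R) (t : R) (y : Fin 4 → R),
        aeval (Sum.elim z (t • y)) F = t ^ m * aeval (Sum.elim z y) F) →
        aeval (Sum.elim z y) F = 0 → ∀ (z' : Fin 3 → ℂ) (y' : Fin 4 → ℂ), z' 0 = 1 →
        eval z' (H * c.disc) ≠ 0 → y' ⬝ᵥ (N'.map (aeval z')).mulVec y' = 0 →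
        aeval (Sum.elim z' y') F = 0 := by
  classical
  -- the complex point
  obtain ⟨t, ht⟩ : ∃ t : Fin 2 → ℂ, eval t (e1 * e2 * G.det * dh2 c.disc) ≠ 0 := by
    by_contra hcon
    push Not at hcon
    have h1 : (e1 * e2 * G.det * dh2 c.disc : P2) = 0 := by
      apply MvPolynomial.funext
      intro b
      rw [hcon b, map_zero]
    have h2 : dh2 c.disc ≠ 0 := by
      intro h3
      have h4 := Cub.disc_ne_zero hP
      have h5 := psi_ne_zero c.disc_hom h4
      apply h5
      rw [psi_eq, h3, map_zero]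
    exact mul_ne_zero (mul_ne_zero (mul_ne_zero he1 he2) hG) h2 h1
  rw [map_mul, map_mul, map_mul] at ht
  have ht4 := right_ne_zero_of_mul ht
  have ht3 := right_ne_zero_of_mul (left_ne_zero_of_mul ht)
  have ht2 := right_ne_zero_of_mul (left_ne_zero_of_mul (left_ne_zero_of_mul ht))
  have ht1 := left_ne_zero_of_mul (left_ne_zero_of_mul (left_ne_zero_of_mul ht))
  have hNt : (c.Nm (ZZ t)).det ≠ 0 := by
    rw [← Cub.eval_disc, ← aeval_eval]
    rw [← aeval_eval, aeval_dh2] at ht4
    exact ht4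
  obtain ⟨w0, hw0, hww0⟩ := iso_complex (c.Nm (ZZ t))
  rw [← Cub.nf_eq_dot] at hww0
  obtain ⟨w, hww, hw3, -⟩ := Cub.exists_good hNt hw0 hww0
  set q : I6 → ℂ := pt (ZZ t) w with hq
  have hq0 : q (.inr 0) = 1 := by
    rw [hq, pt_apply]
    simp [ZZ, hw3]
  have hqk : ∀ k : Fin 2, q (.inr k.succ) = t k := by
    intro k
    rw [hq, pt_apply]
    simp [ZZ, hw3]
  have hqT : c.T q q q = 0 := by
    rw [hq, Cub.T_pt hP, hww, mul_zero]
  have hx0 : x (.inr 0) ≠ 0 := by
    intro h0
    have h1 := hx.gen (X (.inr 0)) 1 (isHomogeneous_X _ _) (by rw [aeval_X, h0]) q hqT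
    rw [eval_X, hq0] at h1
    exact one_ne_zero h1
  set a := x (.inr 0) with ha
  set x' : I6 → K := a⁻¹ • x with hx'
  have hx'0 : x' (.inr 0) = 1 := by
    rw [hx', Pi.smul_apply, smul_eq_mul, ← ha, inv_mul_cancel₀ hx0]
  -- the coordinates
  set th : Fin 2 → K := fun k => x' (.inr k.succ) with hth
  set wK : Fin 4 → K := mk4 (pY K x') 1 with hwK
  have hwK3 : wK 3 = 1 := by rw [hwK, mk4_3]
  have hxpt : x' = pt (ZZ th) wK := by
    apply vec_ext
    · rw [pt_apply, hwK, Cub.vY_mk4S, mk4_3, one_smul, map_add, pY_iY, pY_iZ, add_zero]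
    · rw [pt_apply, hwK, Cub.vY_mk4S, mk4_3, one_smul, map_add, pZ_iY, pZ_iZ, zero_add]
      funext k
      refine Fin.cases ?_ (fun j => ?_) k
      · rw [pZ_apply, hx'0]; simp [ZZ]
      · rw [pZ_apply]; simp [ZZ, hth]
  have h3K : (3 : K) ≠ 0 := by
    have h : (3 : K) = algebraMap ℂ K 3 := (map_ofNat _ 3).symm
    rw [h]
    exact (map_ne_zero _).mpr (by norm_num)
  have hwwK : c.nf (ZZ th) wK wK = 0 := by
    have h1 := Cub.T_ptS hP (ZZ th) wK
    have h2 : c.ext K x' x' x' = 0 := by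
      rw [hx']
      simp only [map_smul, LinearMap.smul_apply, smul_eq_mul, hx.zero, mul_zero]
    rw [← hxpt, h2, hwK3, mul_one] at h1
    exact (mul_eq_zero.mp h1.symm).resolve_left h3K
  -- transfer of polynomials in two variables
  have haev : ∀ (S : Type) [CommRing S] [Algebra ℂ S] (y : I6 → S) (g : P2),
      aeval y (rename (fun k : Fin 2 => (.inr k.succ : I6)) g) =
        aeval (fun k : Fin 2 => y (.inr k.succ)) g := by
    intro S _ _ y g
    rw [aeval_rename]; rfl
  have htq : (fun k : Fin 2 => q (.inr k.succ)) = t := funext hqk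
  have htr : ∀ g : P2, eval t g ≠ 0 → aeval th g ≠ 0 := by
    intro g hg h0
    apply hg
    have h1 := gen_affine hx hx0 (rename (fun k : Fin 2 => (.inr k.succ : I6)) g) (by
      rw [haev]; exact h0) q hqT hq0
    rwa [← aeval_eval, haev, htq, aeval_eval] at h1
  have hK1 := htr _ ht1
  have hK2 := htr _ ht2
  have hK3 := htr _ ht3
  have hdet : ∀ (S : Type) [CommRing S] [Algebra ℂ S] (s : Fin 2 → S),
      (G.map (aeval s)).det = aeval s G.det := fun S _ _ s => (AlgHom.map_det (aeval s) G).symm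
  have hGa : ∀ (S : Type) [CommRing S] [Algebra ℂ S] (s : Fin 2 → S) (v : Fin 4 → S),
      (G.map (aeval s)).mulVec ((G.map (aeval s)).adjugate.mulVec v) = aeval s G.det • v := by
    intro S _ _ s v
    rw [Matrix.mulVec_mulVec, Matrix.mul_adjugate, hdet, Matrix.smul_mulVec, Matrix.one_mulVec]
  have haG : ∀ (S : Type) [CommRing S] [Algebra ℂ S] (s : Fin 2 → S) (v : Fin 4 → S),
      (G.map (aeval s)).adjugate.mulVec ((G.map (aeval s)).mulVec v) = aeval s G.det • v := by
    intro S _ _ s v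
    rw [Matrix.mulVec_mulVec, Matrix.adjugate_mul, hdet, Matrix.smul_mulVec, Matrix.one_mulVec]
  set yK : Fin 4 → K := (G.map (aeval th)).adjugate.mulVec wK with hyK
  have hZ0 : (ZZ th : Fin 3 → K) 0 = 1 := by simp [ZZ]
  refine ⟨ZZ th, yK, hZ0, ?_, ?_, ?_, ?_⟩
  · intro h0
    have h1 := hGa K th wK
    rw [← hyK, h0, Matrix.mulVec_zero] at h1
    have h2 := congrFun h1 3
    rw [Pi.zero_apply, Pi.smul_apply, hwK3, smul_eq_mul, mul_one] at h2
    exact hK3 h2.symm
  · have h1 := eval_sim h th yK yK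
    rw [hyK, hGa] at h1
    simp only [map_smul, LinearMap.smul_apply, smul_eq_mul, hwwK, mul_zero] at h1
    exact (mul_eq_zero.mp h1.symm).resolve_left hK2
  · rintro L hzL ⟨σ, hσ, hyL⟩
    have hthL : ∀ k, th k ∈ L := by
      intro k
      have := hzL k.succ
      simpa [ZZ] using this
    set u : K := σ * aeval th G.det with hu
    have hu0 : u ≠ 0 := mul_ne_zero hσ hK3
    have hwL : ∀ i, u * wK i ∈ L := by
      intro i
      have h1 := congrFun (hGa K th (σ • wK)) i
      rw [Matrix.mulVec_smul, ← hyK] at h1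
      have h2 : u * wK i = (aeval th G.det • (σ • wK)) i := by
        rw [Pi.smul_apply, Pi.smul_apply, smul_eq_mul, smul_eq_mul, hu]; ring
      rw [h2, ← h1, Matrix.mulVec, dotProduct]
      refine L.sum_mem fun j _ => L.mul_mem ?_ ?_
      · rw [Matrix.map_apply]; exact aeval_mem_of L th hthL _
      · rw [Pi.smul_apply, smul_eq_mul]; exact hyL j
    have huL : u ∈ L := by
      have := hwL 3
      rwa [hwK3, mul_one] at this
    have hwL' : ∀ i, wK i ∈ L := by
      intro i
      have h1 : wK i = u⁻¹ * (u * wK i) := by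
        rw [← mul_assoc, inv_mul_cancel₀ hu0, one_mul]
      rw [h1]
      exact L.mul_mem (L.inv_mem huL) (hwL i)
    refine ⟨a⁻¹, inv_ne_zero hx0, fun k => ?_⟩
    have h1 : a⁻¹ * x k = x' k := by rw [hx', Pi.smul_apply, smul_eq_mul]
    rw [h1]
    rcases k with k | k
    · have h2 : x' (.inl k) = wK k.castSucc := by
        rw [hwK]
        fin_cases k <;> rfl
      rw [h2]; exact hwL' _
    · have h2 : x' (.inr k) = (ZZ th : Fin 3 → K) k := by
        conv_lhs => rw [hxpt]
        rw [pt_apply]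
        simp [hwK3]
      rw [h2]; exact hzL k
  · intro F m hF hF0 z' y' hz'0 hD hyy
    -- the affine coordinates
    set t' : Fin 2 → ℂ := fun k => z' k.succ with ht'
    have hz' : z' = ZZ t' := by
      funext i
      refine Fin.cases ?_ (fun j => ?_) i
      · rw [hz'0]; simp [ZZ]
      · simp [ZZ, ht']
    rw [map_mul] at hD
    have hd1 : eval t' (e1 * e2 * G.det) ≠ 0 := by
      rw [← hH, ← aeval_eval, aeval_dh2, aeval_eval]
      have := left_ne_zero_of_mul hD
      rw [hz'] at this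
      exact this
    have hN' : (c.Nm z').det ≠ 0 := by
      rw [← Cub.eval_disc]; exact right_ne_zero_of_mul hD
    rw [map_mul, map_mul] at hd1
    have hg3 : aeval t' G.det ≠ 0 := by
      rw [aeval_eval]; exact right_ne_zero_of_mul hd1
    have hg1 : aeval t' e1 ≠ 0 := by
      rw [aeval_eval]; exact left_ne_zero_of_mul (left_ne_zero_of_mul hd1)
    have hg2 : aeval t' e2 ≠ 0 := by
      rw [aeval_eval]; exact right_ne_zero_of_mul (left_ne_zero_of_mul hd1)
    -- the polynomial on the cubic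
    let tP : Fin 2 → MvPolynomial I6 ℂ := fun k => X (.inr k.succ)
    let wP : Fin 4 → MvPolynomial I6 ℂ := mk4 (fun k => X (.inl k)) 1
    let Q : MvPolynomial I6 ℂ :=
      aeval (Sum.elim (ZZ tP) ((G.map (aeval tP)).adjugate.mulVec wP)) F
    have hQ : ∀ (S : Type) [CommRing S] [Algebra ℂ S] (y : I6 → S), aeval y Q =
        aeval (Sum.elim (ZZ (fun k : Fin 2 => y (.inr k.succ)))
          ((G.map (aeval (fun k : Fin 2 => y (.inr k.succ)))).adjugate.mulVec
            (mk4 (fun k => y (.inl k)) 1))) F := by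
      intro S _ _ y
      rw [MvPolynomial.comp_aeval_apply]
      congr 2
      funext i
      rcases i with i | i
      · rw [Sum.elim_inl, Sum.elim_inl]
        refine Fin.cases ?_ (fun j => ?_) i
        · simp [ZZ]
        · simp [ZZ, tP]
      · rw [Sum.elim_inr, Sum.elim_inr, map_adj_mulVec]
        have h1 : (G.map (aeval tP)).map (aeval y) =
            G.map (aeval (fun k : Fin 2 => y (.inr k.succ))) := by
          ext i j
          rw [Matrix.map_apply, Matrix.map_apply, Matrix.map_apply, MvPolynomial.comp_aeval_apply]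
          simp only [tP, aeval_X]
        rw [h1]
        congr 2
        funext i
        fin_cases i <;> simp [wP, mk4]
    have hQx : aeval x' Q = 0 := by
      rw [hQ]; exact hF0
    -- points with `w 3 = 1`
    have key1 : ∀ w' : Fin 4 → ℂ, w' 3 = 1 → c.nf z' w' w' = 0 →
        aeval (Sum.elim z' ((G.map (aeval t')).adjugate.mulVec w')) F = 0 := by
      intro w' hw'3 hw'
      set q' : I6 → ℂ := pt (ZZ t') w' with hq'
      have hq'0 : q' (.inr 0) = 1 := by
        rw [hq', pt_apply]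
        simp [ZZ, hw'3]
      have hq'k : (fun k : Fin 2 => q' (.inr k.succ)) = t' := by
        funext k
        rw [hq', pt_apply]
        simp [ZZ, hw'3]
      have hq'l : mk4 (fun k => q' (.inl k)) 1 = w' := by
        have h1 : ∀ k : Fin 3, q' (.inl k) = w' k.castSucc := by
          intro k
          rw [hq', pt_apply]
          simp
        funext i
        fin_cases i
        · exact h1 0
        · exact h1 1
        · exact h1 2
        · exact hw'3.symm
      have hq'T : c.T q' q' q' = 0 := by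
        rw [hq', Cub.T_pt hP, ← hz', hw', mul_zero]
      have h1 := gen_affine hx hx0 Q hQx q' hq'T hq'0
      rw [← aeval_eval, hQ, hq'k, hq'l, ← hz'] at h1
      exact h1
    -- points with `w 3 ≠ 0`
    have key2 : ∀ w' : Fin 4 → ℂ, w' 3 ≠ 0 → c.nf z' w' w' = 0 →
        aeval (Sum.elim z' ((G.map (aeval t')).adjugate.mulVec w')) F = 0 := by
      intro w' hw'3 hw'
      have h1 := key1 ((w' 3)⁻¹ • w') (by simp [hw'3]) (by
        simp only [map_smul, LinearMap.smul_apply, smul_eq_mul, hw', mul_zero])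
      have h2 : (G.map (aeval t')).adjugate.mulVec w' =
          w' 3 • ((G.map (aeval t')).adjugate.mulVec ((w' 3)⁻¹ • w')) := by
        rw [← Matrix.mulVec_smul, smul_smul, mul_inv_cancel₀ hw'3, one_smul]
      rw [h2, hF ℂ, h1, mul_zero]
    -- nonzero points
    have key3 : ∀ w' : Fin 4 → ℂ, w' ≠ 0 → c.nf z' w' w' = 0 →
        aeval (Sum.elim z' ((G.map (aeval t')).adjugate.mulVec w')) F = 0 := by
      intro w' hw'0 hw'
      obtain ⟨xc, hxc, ⟨κ, hκ, hxc0⟩, hxc3⟩ := iso_curve hN' hw'0 hw'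
      let zP : Fin 3 → Polynomial ℂ := fun i => Polynomial.C (z' i)
      let AP : Matrix (Fin 4) (Fin 4) (Polynomial ℂ) :=
        (G.map (aeval t')).adjugate.map Polynomial.C
      let R : Polynomial ℂ := aeval (Sum.elim zP (AP.mulVec xc)) F
      have hR : ∀ s : ℂ, R.eval s = aeval (Sum.elim z' ((G.map (aeval t')).adjugate.mulVec
          (fun i => (xc i).eval s))) F := by
        intro s
        rw [← Polynomial.coe_aeval_eq_eval]
        change (Polynomial.aeval s : Polynomial ℂ →ₐ[ℂ] ℂ) R = _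
        rw [MvPolynomial.comp_aeval_apply]
        congr 2
        funext i
        rcases i with i | i
        · simp [zP]
        · rw [Sum.elim_inr, Sum.elim_inr, Polynomial.coe_aeval_eq_eval]
          simp only [AP, Matrix.mulVec, dotProduct, Polynomial.eval_finsetSum,
            Polynomial.eval_mul, Matrix.map_apply, Polynomial.eval_C]
      have h1 : R * xc 3 = 0 := by
        apply Polynomial.funext
        intro s
        rw [Polynomial.eval_mul, Polynomial.eval_zero]
        by_cases h2 : (xc 3).eval s = 0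
        · rw [h2, mul_zero]
        · rw [hR, key2 _ h2 (hxc s), zero_mul]
      have h2 : R = 0 := (mul_eq_zero.mp h1).resolve_right hxc3
      have h3 := hR 0
      rw [h2, Polynomial.eval_zero, hxc0, Matrix.mulVec_smul, hF ℂ] at h3
      exact (mul_eq_zero.mp h3.symm).resolve_left (pow_ne_zero m hκ)
    have key4 : ∀ y' : Fin 4 → ℂ, y' ≠ 0 → y' ⬝ᵥ (N'.map (aeval z')).mulVec y' = 0 →
        aeval (Sum.elim z' y') F = 0 := by
      intro y' hy'0 hyy
      have h1 := eval_sim h t' y' y'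
      rw [← hz', hyy, mul_zero] at h1
      have h2 := (mul_eq_zero.mp h1).resolve_left hg1
      have h3 := key3 _ (by
        intro h0
        have h4 := haG ℂ t' y'
        rw [h0, Matrix.mulVec_zero] at h4
        exact smul_ne_zero hg3 hy'0 h4.symm) h2
      rw [haG, hF ℂ] at h3
      exact (mul_eq_zero.mp h3).resolve_left (pow_ne_zero m hg3)
    by_cases hy'0 : y' = 0
    · obtain ⟨y1, hy1, hyy1⟩ := iso_complex (N'.map (aeval z'))
      have h1 := key4 y1 hy1 hyy1
      have h2 := hF ℂ z' 0 y1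
      rw [zero_smul, h1, mul_zero] at h2
      rw [hy'0]; exact h2
    · exact key4 y' hy'0 hyy

/-- **BIR** -/
theorem bir (hP : c.Iso P0) (Ψ : Matrix (Fin 4) (Fin 4) KK) (ν : KK) (hΨ : Ψ.det ≠ 0)
    (hν : ν ≠ 0) (h : Ψ.transpose * (c.Nm (X : Fin 3 → P3)).map psiK * Ψ = ν • N'.map psiK) :
    ∃ (D : P3) (n : ℕ), D ≠ 0 ∧ D.IsHomogeneous n ∧
    ∀ {K : Type} [Field K] [Algebra ℂ K] (x : I6 → K) (hx : c.Gen x),
    ∃ (z : Fin 3 → K) (y : Fin 4 → K), z 0 = 1 ∧ y ≠ 0 ∧
      y ⬝ᵥ (N'.map (aeval z)).mulVec y = 0 ∧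
      (∀ L : IntermediateField ℂ K, (∀ i, z i ∈ L) → (∃ σ : K, σ ≠ 0 ∧ ∀ i, σ * y i ∈ L) →
        ∃ τ : K, τ ≠ 0 ∧ ∀ m, τ * x m ∈ L) ∧
      ∀ (F : MvPolynomial (Fin 3 ⊕ Fin 4) ℂ) (m : ℕ), (∀ (R : Type) [CommRing R] [Algebra ℂ R]
        (z : Fin 3 → R) (t : R) (y : Fin 4 → R),
        aeval (Sum.elim z (t • y)) F = t ^ m * aeval (Sum.elim z y) F) →
        aeval (Sum.elim z y) F = 0 → ∀ (z' : Fin 3 → ℂ) (y' : Fin 4 → ℂ), z' 0 = 1 →
        eval z' D ≠ 0 → y' ⬝ᵥ (N'.map (aeval z')).mulVec y' = 0 →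
        aeval (Sum.elim z' y') F = 0 := by
  obtain ⟨G, e1, e2, hG, he1, he2, hh⟩ := clear_sim _ _ Ψ ν hΨ hν h
  obtain ⟨n, H, hHh, hH⟩ := exists_hom (e1 * e2 * G.det)
  have hH0 : H ≠ 0 := by
    rintro rfl
    rw [map_zero] at hH
    exact mul_ne_zero (mul_ne_zero he1 he2) hG hH.symm
  refine ⟨H * c.disc, n + 6, mul_ne_zero hH0 (Cub.disc_ne_zero hP), hHh.mul c.disc_hom, ?_⟩
  intro K _ _ x hx
  exact bir_aux hP hh hG he1 he2 H hH x hx

end

end Pool.Agent.Helper64.HA
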