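import Pool.Agent.Helper64.HA.P44
import Pool.Agent.Helper64.HA.Bir
import Pool.Agent.Helper89.VE.Defs
import Pool.Agent.Helper29.HP.Main

set_option autoImplicit false
set_option linter.unusedVariables false

/-!
Project VE: the pieces `ve_sim` and `ve_bir`.
-/

namespace Pool.Agent.Helper64.HA

open MvPolynomial Pool.Agent.Helper29.HP Pool.Agent.Helper16 Pool.Agent.Helper89.VE

theorem ve_sim {c : Cub (I6 → ℂ)} (hirr : Irreducible c.disc) {a : Cof} (ha : a.Symm)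
    (hdet : (MX a).det = c.disc) (μ : P3) {n : ℕ} (hμ : μ.IsHomogeneous n) (hμδ : ¬ c.disc ∣ μ)
    (hsp : ∀ π : P3, Irreducible π → π ∣ μ → ∃ g h : P3, ¬ π ∣ h ∧ π ∣ g ^ 2 - c.disc * h ^ 2)
    (i : Fin 4) (j : Fin 3) (s : P3)
    (hi : ¬ c.disc ∣ (c.Nm (X : Fin 3 → P3)).adjugate i i)
    (hj : ¬ c.disc ∣ (MX a).adjugate j j)
    (hs : c.disc ∣ s ^ 2 - μ * (c.Nm (X : Fin 3 → P3)).adjugate i i * (MX a).adjugate j j) :
    (∃ y : Fin 4 → KK, y ≠ 0 ∧ y ⬝ᵥ ((c.Nm (X : Fin 3 → P3)).map psiK).mulVec y = 0) ∨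
    ∃ (Ψ : Matrix (Fin 4) (Fin 4) KK) (ν : KK), ν ≠ 0 ∧ Ψ.det ≠ 0 ∧
      Ψ.transpose * (c.Nm (X : Fin 3 → P3)).map psiK * Ψ = ν • (VX a).map psiK := by
  have hμ0 : μ ≠ 0 := fun h => hμδ (h ▸ dvd_zero _)
  have hδh : c.disc.IsHomogeneous 6 := c.disc_hom
  have hprime : Prime (psi c.disc) := psi_prime_of_deg hirr hδh (by norm_num)
  have hadj := VX_adj a j
  have hdetV : (VX a).det = c.disc := by rw [VX_det, hdet]
  have hVs : (VX a).IsSymm := VX_symm ha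
  have hNs : (c.Nm (X : Fin 3 → P3)).IsSymm := c.Nm_symm _
  obtain ⟨ni, -, hih⟩ := c.adj_hom i i
  obtain ⟨nj, hjh⟩ : ∃ m, ((MX a).adjugate j j).IsHomogeneous m := by
    refine ⟨4, ?_⟩
    have h1 : ∀ p q : Fin 3, (MX a p q).IsHomogeneous 2 := MX_hom a
    have h2 : ∀ p q r s : Fin 3,
        (MX a p q * MX a r s).IsHomogeneous 4 := fun p q r s => (h1 p q).mul (h1 r s)
    rw [Matrix.adjugate_fin_three]
    fin_cases j
    · exact (h2 1 1 2 2).sub (h2 1 2 2 1)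
    · exact (h2 0 0 2 2).sub (h2 0 2 2 0)
    · exact (h2 0 0 1 1).sub (h2 0 1 1 0)
  rw [← hadj] at hj hs hjh
  set N := c.Nm (X : Fin 3 → P3) with hN
  set V := VX a with hV
  have hadjN : (N.map psi).adjugate = N.adjugate.map psi :=
    (RingHom.map_adjugate (psi : P3 →+* AA) N).symm
  have hadjV : (V.map psi).adjugate = V.adjugate.map psi :=
    (RingHom.map_adjugate (psi : P3 →+* AA) V).symm
  have hdN : (N.map psi).det = psi c.disc := (RingHom.map_det (psi : P3 →+* AA) N).symm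
  have hdV : (V.map psi).det = psi c.disc := by
    rw [← hdetV]; exact (RingHom.map_det (psi : P3 →+* AA) V).symm
  have key := p44 (N.map psi) (V.map psi) (map_symm _ hNs)
    (map_symm _ hVs) (psi c.disc) (psi μ) (psi s) hprime hdN hdV (psi_ne_zero hμ hμ0)
    (fun h => hμδ (dvd_of_psi_dvd hirr hδh hμ hprime h)) (psi_sq hμ hμ0 hδh hsp) i j.castSucc (by
      rw [hadjN, Matrix.map_apply]
      exact fun h => hi (dvd_of_psi_dvd hirr hδh hih hprime h)) (by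
      rw [hadjV, Matrix.map_apply]
      exact fun h => hj (dvd_of_psi_dvd hirr hδh hjh hprime h)) (by
      rw [hadjN, hadjV, Matrix.map_apply, Matrix.map_apply, ← map_pow, ← map_mul, ← map_mul,
        ← map_sub]
      exact map_dvd psi hs)
  have hNK : (N.map psi).map (algebraMap AA KK) = N.map psiK := by
    rw [Matrix.map_map]; rfl
  have hVK : (V.map psi).map (algebraMap AA KK) = V.map psiK := by
    rw [Matrix.map_map]; rfl
  rw [hNK, hVK] at key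
  rcases key with h | ⟨Ψ, ν, h1, h2, h3⟩
  · exact Or.inl h
  · exact Or.inr ⟨Ψ, ν, h2, h1, h3⟩

theorem ve_bir {c : Cub (I6 → ℂ)} (hP : c.Iso P0) (N' : Matrix (Fin 4) (Fin 4) P3)
    (Ψ : Matrix (Fin 4) (Fin 4) KK) (ν : KK) (hν : ν ≠ 0) (hΨ : Ψ.det ≠ 0)
    (h : Ψ.transpose * (c.Nm (X : Fin 3 → P3)).map psiK * Ψ = ν • N'.map psiK)
    {K : Type} [Field K] [Algebra ℂ K] (x : I6 → K) (hx : c.Gen x) :
    ∃ (z : Fin 3 → K) (y : Fin 4 → K), z 0 = 1 ∧ y ≠ 0 ∧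
      y ⬝ᵥ (N'.map (aeval z)).mulVec y = 0 ∧
      (∀ (L : IntermediateField ℂ K) (σ : K), (∀ i, z i ∈ L) → σ ≠ 0 → (∀ i, σ * y i ∈ L) →
        ∃ τ : K, τ ≠ 0 ∧ ∀ m, τ * x m ∈ L) ∧
      ∃ (D : P3) (n : ℕ), D ≠ 0 ∧ D.IsHomogeneous n ∧
        ∀ (G : MvPolynomial (Fin 3 ⊕ Fin 4) ℂ) (m : ℕ),
          (∀ (R : Type) [CommRing R] [Algebra ℂ R] (z : Fin 3 → R) (t : R) (y : Fin 4 → R),
            aeval (Sum.elim z (t • y)) G = t ^ m * aeval (Sum.elim z y) G) →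
          aeval (Sum.elim z y) G = 0 → ∀ (z' : Fin 3 → ℂ) (y' : Fin 4 → ℂ), z' 0 = 1 →
          eval z' D ≠ 0 → y' ⬝ᵥ (N'.map (aeval z')).mulVec y' = 0 →
          aeval (Sum.elim z' y') G = 0 := by
  obtain ⟨D, n, hD, hDh, hb⟩ := bir hP Ψ ν hΨ hν h
  obtain ⟨z, y, h1, h2, h3, h4, h5⟩ := hb x hx
  exact ⟨z, y, h1, h2, h3, fun L σ hz hσ hy => h4 L hz ⟨σ, hσ, hy⟩, D, n, hD, hDh, h5⟩

end Pool.Agent.Helper64.HA
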