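import Pool.Agent.Helper64.HA.Loc
import Pool.Agent.Helper27.PUR.Fin

set_option autoImplicit false
set_option linter.unusedSectionVars false
set_option linter.unusedVariables false

/-!
Local unimodularity of `N - μ M` at every prime, and the purity statement.
-/

namespace Pool.Agent.Helper64.HA

open Matrix Module Pool.Agent.Helper27.PUR

/-- lifting a Lagrangian subspace of the reduction -/
theorem lift_lagr {R κ : Type*} [CommRing R] [Field κ] (f : R →+* κ)
    (hf : Function.Surjective f) {π : R} (hπ : ∀ x, f x = 0 ↔ π ∣ x) {m : Type*} [Fintype m]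
    [DecidableEq m] (M : Matrix m m R) (hM : M.IsSymm) (hdet : f M.det ≠ 0)
    (hmeta : Mtb (M.map f)) :
    ∃ (r : ℕ) (u : Fin r → m → R), (∀ i j, π ∣ u i ⬝ᵥ M *ᵥ u j) ∧
      ∀ z : m → R, (∀ i, π ∣ u i ⬝ᵥ M *ᵥ z) →
        ∃ c : Fin r → R, ∀ a, π ∣ z a - ∑ i, c i * u i a := by
  classical
  obtain ⟨L, hL1, hL2⟩ := hmeta
  have hdot : ∀ x y : m → R, f (x ⬝ᵥ M *ᵥ y) = (fun a => f (x a)) ⬝ᵥ M.map f *ᵥ fun a => f (y a) := by
    intro x y
    simp [dotProduct, mulVec]
  have hdet' : (M.map f).det ≠ 0 := by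
    have : (M.map f).det = f M.det := by
      rw [RingHom.map_det, RingHom.mapMatrix_apply]
    rw [this]; exact hdet
  set B : LinearMap.BilinForm κ (m → κ) := Matrix.toBilin' (M.map f) with hB
  have hBa : ∀ x y, B x y = x ⬝ᵥ M.map f *ᵥ y := by
    intro x y
    rw [hB, Matrix.toBilin'_apply']
  have hBn : B.Nondegenerate :=
    LinearMap.BilinForm.nondegenerate_toBilin'_of_det_ne_zero' _ hdet'
  have hle : L ≤ B.orthogonal L := by
    intro x hx
    rw [LinearMap.BilinForm.mem_orthogonal_iff]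
    intro y hy
    rw [hBa]
    exact hL2 y hy x hx
  have hfin : finrank κ (B.orthogonal L) ≤ finrank κ L := by
    rw [LinearMap.BilinForm.finrank_orthogonal hBn, Module.finrank_fintype_fun_eq_card]
    omega
  have hLeq : L = B.orthogonal L := Submodule.eq_of_le_of_finrank_le hle hfin
  let b := finBasis κ L
  choose g hg using hf
  refine ⟨finrank κ L, fun i a => g ((b i : m → κ) a), ?_, ?_⟩
  · intro i j
    rw [← hπ, hdot]
    simp only [hg]
    exact hL2 _ (b i).2 _ (b j).2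
  · intro z hz
    have hzL : (fun a => f (z a)) ∈ L := by
      rw [hLeq, LinearMap.BilinForm.mem_orthogonal_iff]
      intro y hy
      rw [hBa]
      have h1 : ∀ i, (b i : m → κ) ⬝ᵥ M.map f *ᵥ (fun a => f (z a)) = 0 := by
        intro i
        have h2 := (hπ _).mpr (hz i)
        rw [hdot] at h2
        simp only [hg] at h2
        exact h2
      have h3 : y = ∑ i, b.repr ⟨y, hy⟩ i • (b i : m → κ) := by
        have := congrArg (Subtype.val) (b.sum_repr ⟨y, hy⟩)
        simp only [Submodule.coe_sum, Submodule.coe_smul] at this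
        exact this.symm
      rw [h3, sum_dotProduct]
      refine Finset.sum_eq_zero fun i _ => ?_
      rw [smul_dotProduct, h1 i, smul_zero]
    refine ⟨fun i => g (b.repr ⟨_, hzL⟩ i), fun a => ?_⟩
    rw [← hπ, map_sub, map_sum]
    have h3 := congrArg (Subtype.val) (b.sum_repr ⟨_, hzL⟩)
    simp only [Submodule.coe_sum, Submodule.coe_smul] at h3
    have h4 := congrFun h3 a
    rw [Finset.sum_apply] at h4
    simp only [map_mul, hg]
    rw [← h4]
    simp [Pi.smul_apply, smul_eq_mul]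

/-- square free part -/
theorem exists_sqfree {R : Type*} [CommRing R] [IsDomain R] [WfDvdMonoid R] (μ : R)
    (hμ : μ ≠ 0) : ∃ μ₀ ν : R, μ = μ₀ * ν ^ 2 ∧ Squarefree μ₀ := by
  have hwf := (wellFounded_dvdNotUnit (α := R))
  induction μ using hwf.induction with
  | _ μ ih =>
    by_cases hsq : Squarefree μ
    · exact ⟨μ, 1, by ring, hsq⟩
    · rw [Squarefree] at hsq
      push Not at hsq
      obtain ⟨x, ⟨y, hy⟩, hx⟩ := hsq
      have hy0 : y ≠ 0 := by
        rintro rfl
        exact hμ (by rw [hy, mul_zero])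
      obtain ⟨μ₀, ν, h1, h2⟩ := ih y ⟨hy0, x * x, fun h => hx (isUnit_of_mul_isUnit_left h), by
        rw [hy]; ring⟩ hy0
      exact ⟨μ₀, ν * x, by rw [hy, h1]; ring, h2⟩

open Pool.Agent.Helper29.HP in
/-- the form `N - μ₀ M` is locally unimodular everywhere, `μ₀` the square free part of `μ` -/
theorem loc_all (N : Matrix (Fin 4) (Fin 4) AA) (M : Matrix (Fin 6) (Fin 6) AA) (hN : N.IsSymm)
    (hM : M.IsSymm) (δ μ s : AA) (hδ : Prime δ) (hdN : N.det = δ) (hdM : M.det = δ)
    (hμ : Squarefree μ) (hμδ : ¬ δ ∣ μ)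
    (hsp : ∀ π : AA, Prime π → π ∣ μ → ∃ g h : AA, ¬ π ∣ h ∧ π ∣ g ^ 2 - δ * h ^ 2)
    (i : Fin 4) (j : Fin 6) (hi : ¬ δ ∣ N.adjugate i i) (hj : ¬ δ ∣ M.adjugate j j)
    (hs : δ ∣ s ^ 2 - μ * N.adjugate i i * M.adjugate j j) (π : AA) (hπ : Irreducible π) :
    LocUni ((fromBlocks N 0 0 (-(μ • M))).map (algebraMap AA KK)) π := by
  by_cases h1 : π ∣ δ
  · -- the discriminant prime
    have hass : δ ∣ π := (hπ.dvd_symm hδ.irreducible h1)
    have hsδ : ¬ δ ∣ s := by
      intro h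
      have h2 : δ ∣ μ * N.adjugate i i * M.adjugate j j := by
        have h3 : μ * N.adjugate i i * M.adjugate j j =
          s ^ 2 - (s ^ 2 - μ * N.adjugate i i * M.adjugate j j) := by ring
        rw [h3]
        exact dvd_sub (Dvd.dvd.trans h (dvd_pow_self s two_ne_zero)) hs
      rcases hδ.dvd_or_dvd h2 with h | h
      · rcases hδ.dvd_or_dvd h with h | h
        · exact hμδ h
        · exact hi h
      · exact hj h
    have h1' : ¬ δ ∣ 1 := fun h => hδ.not_isUnit (isUnit_of_dvd_one h)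
    obtain ⟨Λ, hΛ1, hΛ2, hΛ3, s', hs'1, hs'2⟩ := loc_delta (F := KK) hN hM (μ := μ) (d1 := 1)
      (d2 := 1) (s := μ * M.adjugate j j) (t := s) (k := i) (l := j) hδ (by rw [hdN, mul_one])
      (by rw [hdM, mul_one]) h1' h1' hi hj hμδ hsδ (by
        obtain ⟨q, hq⟩ := hs
        refine ⟨-(q * (μ * M.adjugate j j)), ?_⟩
        linear_combination (-(μ * M.adjugate j j)) * hq)
    exact ⟨Λ, hΛ1, hΛ2, hΛ3, s', fun h => hs'1 (hass.trans h), hs'2⟩
  · by_cases h2 : π ∣ μ
    · -- a prime factor of the multiplier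
      obtain ⟨g, h, hh, hgh⟩ := hsp π hπ.prime h2
      have : Fact (Irreducible π) := ⟨hπ⟩
      set f : AA →+* AdjoinRoot π := AdjoinRoot.mk π with hf
      have hf0 : ∀ x, f x = 0 ↔ π ∣ x := fun x => AdjoinRoot.mk_eq_zero
      have hT : Pool.Agent.Helper27.PUR.Tern (AdjoinRoot π) := tern_residue π
      have hdetf : f M.det ≠ 0 := by
        rw [Ne, hf0, hdM]; exact h1
      have h2' : (2 : AdjoinRoot π) ≠ 0 := by
        have h3 : (2 : AdjoinRoot π) = algebraMap kx (AdjoinRoot π) 2 := (map_ofNat _ 2).symm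
        rw [h3]
        exact (map_ne_zero _).mpr two_ne_zero
      have hMf : (M.map f).det = f M.det := by
        rw [RingHom.map_det, RingHom.mapMatrix_apply]
      have hmeta : Mtb (M.map f) := by
        refine meta_of_disc h2' hT 3 (Fin 6) (M.map f) ?_ ?_ (by simp) ?_
        · rw [← Matrix.transpose_map, hM.eq]
        · rw [hMf]; exact (isUnit_iff_ne_zero (G₀ := AdjoinRoot π)).mpr (fun h => hdetf h)
        · obtain ⟨r, hr⟩ := isSquare_neg_one
          have hr' : f r * f r = -1 := by rw [← map_mul, ← hr, map_neg, map_one]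
          have hfh : f h ≠ 0 := by rw [Ne, hf0]; exact hh
          have hfg : f g ^ 2 = f δ * f h ^ 2 := by
            have := (hf0 _).mpr hgh
            rw [map_sub, map_mul, map_pow, map_pow] at this
            exact sub_eq_zero.mp this
          refine ⟨f r * f g / f h, ?_⟩
          rw [hMf, hdM]
          field_simp
          linear_combination (-(f g ^ 2)) * hr' + hfg
      obtain ⟨r, u, hu1, hu2⟩ := lift_lagr f (AdjoinRoot.mk_surjective) hf0 M hM hdetf hmeta
      obtain ⟨μ', hμ'⟩ := h2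
      refine loc_pi hN hM hπ.prime hμ' ?_ (by rw [hdN]; exact h1) (by rw [hdM]; exact h1) u hu1 hu2
      rintro ⟨q, hq⟩
      have := hμ π ⟨q, by rw [hμ', hq]; ring⟩
      exact hπ.not_isUnit this
    · refine loc_other (block_symm hN hM μ) ?_
      rw [det_block, hdN, hdM]
      intro h
      rcases hπ.prime.dvd_or_dvd h with h | h
      · exact h1 h
      · rcases hπ.prime.dvd_or_dvd h with h | h
        · exact h2 (hπ.prime.dvd_of_dvd_pow h)
        · exact h1 h

open Pool.Agent.Helper29.HP in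
/-- the form `N - μ M` over `C(x, y)` is hyperbolic -/
theorem purity_full (N : Matrix (Fin 4) (Fin 4) AA) (M : Matrix (Fin 6) (Fin 6) AA) (hN : N.IsSymm)
    (hM : M.IsSymm) (δ μ s : AA) (hδ : Prime δ) (hdN : N.det = δ) (hdM : M.det = δ) (hμ : μ ≠ 0)
    (hμδ : ¬ δ ∣ μ)
    (hsp : ∀ π : AA, Prime π → π ∣ μ → ∃ g h : AA, ¬ π ∣ h ∧ π ∣ g ^ 2 - δ * h ^ 2)
    (i : Fin 4) (j : Fin 6) (hi : ¬ δ ∣ N.adjugate i i) (hj : ¬ δ ∣ M.adjugate j j)
    (hs : δ ∣ s ^ 2 - μ * N.adjugate i i * M.adjugate j j) :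
    ∃ (u : Fin 5 → Fin 4 → AA) (v : Fin 5 → Fin 6 → AA),
      LinearIndependent AA (fun a => (u a, v a)) ∧
      ∀ a b, u a ⬝ᵥ N.mulVec (u b) = μ * (v a ⬝ᵥ M.mulVec (v b)) := by
  obtain ⟨μ₀, ν, hμν, hsq⟩ := exists_sqfree μ hμ
  have hμ₀ : μ₀ ≠ 0 := by
    rintro rfl
    exact hμ (by rw [hμν, zero_mul])
  have hν : ν ≠ 0 := by
    rintro rfl
    exact hμ (by rw [hμν]; ring)
  have hδμ₀ : ¬ δ ∣ μ₀ := fun h => hμδ (by rw [hμν]; exact Dvd.dvd.mul_right h _)
  have hδν : ¬ δ ∣ ν := fun h => hμδ (by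
    rw [hμν]; exact Dvd.dvd.mul_left (Dvd.dvd.trans h (dvd_pow_self ν two_ne_zero)) _)
  obtain ⟨a, b, hab⟩ : ∃ a b : AA, a * δ + b * ν = 1 := by
    have : Fact (Irreducible δ) := ⟨hδ.irreducible⟩
    have h1 : AdjoinRoot.mk δ ν ≠ 0 := by
      rw [Ne, AdjoinRoot.mk_eq_zero]; exact hδν
    obtain ⟨b, hb⟩ := AdjoinRoot.mk_surjective (g := δ) (AdjoinRoot.mk δ ν)⁻¹
    have h2 : AdjoinRoot.mk δ (1 - b * ν) = 0 := by
      rw [map_sub, map_mul, map_one, hb, inv_mul_cancel₀ (fun h => h1 h), sub_self]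
    obtain ⟨a, ha⟩ := AdjoinRoot.mk_eq_zero.mp h2
    exact ⟨a, b, by linear_combination -ha⟩
  have hs' : δ ∣ (s * b) ^ 2 - μ₀ * N.adjugate i i * M.adjugate j j := by
    obtain ⟨q, hq⟩ := hs
    have e1 : (s * b) ^ 2 - μ₀ * N.adjugate i i * M.adjugate j j =
        δ * (b ^ 2 * q - μ₀ * N.adjugate i i * M.adjugate j j * (a * (b * ν + 1))) := by
      rw [hμν] at hq
      linear_combination (b ^ 2) * hq +
        μ₀ * N.adjugate i i * M.adjugate j j * (b * ν + 1) * hab
    rw [e1]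
    exact dvd_mul_right _ _
  obtain ⟨u, v, huv1, huv2⟩ := purity_of_loc N M hN hM δ μ₀ hδ.ne_zero hdN hdM hμ₀
    (loc_all N M hN hM δ μ₀ (s * b) hδ hdN hdM hsq hδμ₀ (fun π hπ h => hsp π hπ (by
      rw [hμν]; exact Dvd.dvd.mul_right h _)) i j hi hj hs')
  refine ⟨fun a => ν • u a, v, ?_, ?_⟩
  · rw [Fintype.linearIndependent_iff] at huv1 ⊢
    intro g hg
    apply huv1 g
    have h1 := congrArg Prod.fst hg
    have h2 := congrArg Prod.snd hg
    simp only [Prod.fst_sum, Prod.snd_sum, Prod.smul_fst, Prod.smul_snd, Prod.fst_zero,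
      Prod.snd_zero] at h1 h2
    refine Prod.ext ?_ ?_
    · simp only [Prod.fst_sum, Prod.smul_fst, Prod.fst_zero]
      funext c
      have h3 := congrFun h1 c
      simp only [Finset.sum_apply, Pi.smul_apply, smul_eq_mul, Pi.zero_apply] at h3 ⊢
      have h4 : ν * ∑ x, g x * u x c = 0 := by
        rw [Finset.mul_sum, ← h3]
        refine Finset.sum_congr rfl fun x _ => ?_
        ring
      exact (mul_eq_zero.mp h4).resolve_left hν
    · simp only [Prod.snd_sum, Prod.smul_snd, Prod.snd_zero]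
      exact h2
  · intro a b
    rw [mulVec_smul, dotProduct_smul, smul_dotProduct, huv2, hμν]
    simp only [smul_eq_mul]
    ring

end Pool.Agent.Helper64.HA
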