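import Pool.Agent.Helper29.HP.St.EvenAff
import Pool.Agent.Helper29.HP.St.Irr

set_option autoImplicit false
set_option linter.unusedVariables false

/-!
Projective form of `even_affine`: a curve `π` which splits in the double plane branched along the
smooth sextic `δ` meets `δ` everywhere with even multiplicity.
-/

namespace Pool.Agent.Helper64.HA

open MvPolynomial Pool.Agent.Helper29.HP

theorem eval_scale {G : P3} {n : ℕ} (hG : G.IsHomogeneous n) (a : ℂ) (z : Fin 3 → ℂ) :
    eval (a • z) G = a ^ n * eval z G := by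
  rw [eval_eq', eval_eq', Finset.mul_sum]
  refine Finset.sum_congr rfl fun d hd => ?_
  have h1 : d.degree = n := by
    have := hG (mem_support_iff.mp hd)
    rw [← this, Finsupp.degree_eq_weight_one]
    rfl
  have h2 : ∏ i : Fin 3, (a • z) i ^ d i = a ^ n * ∏ i : Fin 3, z i ^ d i := by
    simp only [Pi.smul_apply, smul_eq_mul, mul_pow, Finset.prod_mul_distrib]
    rw [Finset.prod_pow_eq_pow_sum]
    congr 2
    rw [← h1, Finsupp.degree_eq_sum]
  rw [h2]
  ring

theorem eval_norm {G : P3} {n : ℕ} (hG : G.IsHomogeneous n) {z : Fin 3 → ℂ} (hz : z 0 ≠ 0) :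
    eval z G = z 0 ^ n * eval (fun i : Fin 2 => z i.succ / z 0) (dh2 G) := by
  rw [eval_dh2, ← eval_scale hG]
  congr 2
  funext i
  refine Fin.cases ?_ (fun j => ?_) i
  · simp
  · simp only [Pi.smul_apply, Fin.cons_succ, smul_eq_mul]
    field_simp

/-- the case `z 0 ≠ 0` -/
theorem evenOn_split0 (δ π : P3) (n : ℕ) (hδ : δ.IsHomogeneous 6) (hirr : Irreducible δ)
    (hsm : ∀ z : Fin 3 → ℂ, z ≠ 0 → eval z δ = 0 → ∃ i, eval z (pderiv i δ) ≠ 0)
    (hπ : Irreducible π) (hn : π.IsHomogeneous n) (hδπ : ¬ δ ∣ π) (d : ℕ) (g h : P3)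
    (hh : h.IsHomogeneous d) (hπh : ¬ π ∣ h)
    (hgh : π ∣ g ^ 2 - δ * h ^ 2) (z : Fin 3 → ℂ) (hz : z 0 ≠ 0) (hzδ : eval z δ = 0) :
    ∃ α β σ : P3, eval z α ≠ 0 ∧ eval z β ≠ 0 ∧ δ ∣ α * π - β * σ ^ 2 := by
  by_cases hzπ : eval z π = 0
  swap
  · exact ⟨1, π, 1, by simp, hzπ, by simp⟩
  have hX : ∀ p : P3, Irreducible p → eval z p = 0 → ¬ X 0 ∣ p := by
    intro p hp hzp hdvd
    obtain ⟨q, hq⟩ := hdvd
    have hu : IsUnit q := by
      rcases hp.isUnit_or_isUnit hq with h1 | h1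
      · exfalso
        have h2 := h1.map (eval (0 : Fin 3 → ℂ))
        simp at h2
      · exact h1
    have h3 := hu.map (eval z)
    rw [hq, map_mul, eval_X] at hzp
    rcases mul_eq_zero.mp hzp with h4 | h4
    · exact hz h4
    · rw [h4] at h3
      exact not_isUnit_zero h3
  have hXδ := hX δ hirr hzδ
  have hXπ := hX π hπ hzπ
  set P : Fin 2 → ℂ := fun i => z i.succ / z 0 with hP
  have hPδ : eval P (dh2 δ) = 0 := by
    have h1 := eval_norm hδ hz
    rw [hzδ] at h1
    exact (mul_eq_zero.mp h1.symm).resolve_left (pow_ne_zero _ hz)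
  obtain ⟨α, β, σ, hα, hβ, hdvd⟩ := even_affine (dh2 δ) (dh2 π) (dh2 g) (dh2 h)
    (irreducible_dh2 hδ hirr hXδ) (irreducible_dh2 hn hπ hXπ)
    (fun h1 => hδπ (dvd_of_dh2_dvd hδ hn hirr hXδ h1))
    (fun h1 => hπh (dvd_of_dh2_dvd hn hh hπ hXπ h1))
    (by
      have := map_dvd dh2 hgh
      simpa only [map_sub, map_mul, map_pow] using this)
    P hPδ (smooth_dh2 hδ hsm P hPδ)
  set S := σ.totalDegree with hS
  set A := α.totalDegree + β.totalDegree + 2 * S with hA
  obtain ⟨B, hB⟩ : ∃ B, B = A + n - 2 * S := ⟨_, rfl⟩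
  have hBS : A + n = B + 2 * S := by omega
  have e1 : dh2 (hmg2 A α) = α := dh2_hmg2 (by omega)
  have e2 : dh2 (hmg2 B β) = β := dh2_hmg2 (by omega)
  have e3 : dh2 (hmg2 S σ) = σ := dh2_hmg2 le_rfl
  refine ⟨hmg2 A α, hmg2 B β, hmg2 S σ, ?_, ?_, ?_⟩
  · rw [eval_norm (hmg2_hom A α) hz, e1]
    exact mul_ne_zero (pow_ne_zero _ hz) hα
  · rw [eval_norm (hmg2_hom B β) hz, e2]
    exact mul_ne_zero (pow_ne_zero _ hz) hβ
  · refine dvd_of_dh2_dvd hδ (q := hmg2 A α * π - hmg2 B β * hmg2 S σ ^ 2) (m := A + n) ?_ hirr hXδ ?_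
    · refine IsHomogeneous.sub ((hmg2_hom A α).mul hn) ?_
      have := (hmg2_hom B β).mul ((hmg2_hom S σ).pow 2)
      rw [hBS, mul_comm 2 S]
      exact this
    · rw [map_sub, map_mul, map_mul, map_pow, e1, e2, e3]
      exact hdvd

theorem rename_dvd (e : Equiv.Perm (Fin 3)) {p q : P3} : rename e p ∣ rename e q ↔ p ∣ q := by
  have h := map_dvd_iff (renameEquiv ℂ e) (a := p) (b := q)
  simpa [renameEquiv] using h

theorem rename_irr (e : Equiv.Perm (Fin 3)) {p : P3} (hp : Irreducible p) :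
    Irreducible (rename e p) := by
  have h := (MulEquiv.irreducible_iff (renameEquiv ℂ e)).mpr hp
  simpa [renameEquiv] using h

theorem evenOn_split' (δ π : P3) (n : ℕ) (hδ : δ.IsHomogeneous 6) (hirr : Irreducible δ)
    (hsm : ∀ z : Fin 3 → ℂ, z ≠ 0 → eval z δ = 0 → ∃ i, eval z (pderiv i δ) ≠ 0)
    (hπ : Irreducible π) (hn : π.IsHomogeneous n) (hδπ : ¬ δ ∣ π) (d : ℕ) (g h : P3)
    (hg : g.IsHomogeneous (d + 3)) (hh : h.IsHomogeneous d) (hπh : ¬ π ∣ h)
    (hgh : π ∣ g ^ 2 - δ * h ^ 2) : EvenOn δ π := by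
  intro z hz hzδ
  obtain ⟨i0, hi0⟩ := Function.ne_iff.mp hz
  set e : Equiv.Perm (Fin 3) := Equiv.swap 0 i0 with he
  have hee : ∀ i, e (e i) = i := fun i => by rw [he, ← Equiv.trans_apply, Equiv.swap_swap]; rfl
  have hev : ∀ G : P3, eval (z ∘ e) (rename e G) = eval z G := by
    intro G
    rw [eval_rename]
    congr 2
    funext i
    simp only [Function.comp, hee]
  have hev' : ∀ (y : Fin 3 → ℂ) (G : P3), eval y (rename e G) = eval (y ∘ e) G := by
    intro y G
    rw [eval_rename]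
  obtain ⟨α, β, σ, hα, hβ, hdvd⟩ := evenOn_split0 (rename e δ) (rename e π) n
    hδ.rename_isHomogeneous (rename_irr e hirr) (by
      intro y hy hyδ
      rw [hev'] at hyδ
      obtain ⟨i, hi⟩ := hsm (y ∘ e) (by
        intro h0
        apply hy
        funext i
        have := congrFun h0 (e i)
        simpa [Function.comp, hee] using this) hyδ
      refine ⟨e i, ?_⟩
      rw [pderiv_rename e.injective, hev']
      exact hi)
    (rename_irr e hπ) hn.rename_isHomogeneous (by rw [rename_dvd]; exact hδπ) d (rename e g)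
    (rename e h) hh.rename_isHomogeneous (by rw [rename_dvd]; exact hπh)
    (by
      have := (rename_dvd e).mpr hgh
      simpa only [map_sub, map_mul, map_pow] using this)
    (z ∘ e) (by simpa [Function.comp, he] using hi0) (by rw [hev]; exact hzδ)
  have hback : ∀ G : P3, rename e (rename e G) = G := by
    intro G
    rw [rename_rename]
    have : (e ∘ e : Fin 3 → Fin 3) = id := funext hee
    rw [this, rename_id]
    rfl
  refine ⟨rename e α, rename e β, rename e σ, ?_, ?_, ?_⟩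
  · rw [hev']; exact hα
  · rw [hev']; exact hβ
  · rw [← rename_dvd e]
    simpa only [map_sub, map_mul, map_pow, hback] using hdvd

end Pool.Agent.Helper64.HA
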