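import Pool.Agent.Helper64.HA.Main

set_option autoImplicit false
set_option linter.unusedSectionVars false
set_option linter.unusedVariables false

/-!
Purity for `N - μ M`, arbitrary even sizes.
-/

namespace Pool.Agent.Helper64.HA

open Matrix Module Pool.Agent.Helper27.PUR Pool.Agent.Helper29.HP

variable {n m : Type} [Fintype n] [DecidableEq n] [Fintype m] [DecidableEq m]

theorem det_block_gen {R : Type*} [CommRing R] (N : Matrix n n R) (M : Matrix m m R) (μ : R) :
    (fromBlocks N 0 0 (-(μ • M))).det = N.det * ((-μ) ^ Fintype.card m * M.det) := by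
  rw [det_fromBlocks_zero₂₁, ← neg_smul, det_smul]

theorem neg_pow_aux {R : Type*} [CommRing R] (x : R) (r : ℕ) : (-x) ^ (r + r) = x ^ r * x ^ r := by
  rw [Even.neg_pow ⟨r, rfl⟩, pow_add]

/-- the form `N - μ M` is locally unimodular everywhere, `μ` square free -/
theorem loc_gen (hm : Even (Fintype.card m)) (N : Matrix n n AA) (M : Matrix m m AA)
    (hN : N.IsSymm) (hM : M.IsSymm) (δ μ s : AA) (hδ : Prime δ) (hdN : N.det = δ)
    (hdM : M.det = δ) (hμ : Squarefree μ) (hμδ : ¬ δ ∣ μ)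
    (hsp : ∀ π : AA, Prime π → π ∣ μ → ∃ g h : AA, ¬ π ∣ h ∧ π ∣ g ^ 2 - δ * h ^ 2)
    (i : n) (j : m) (hi : ¬ δ ∣ N.adjugate i i) (hj : ¬ δ ∣ M.adjugate j j)
    (hs : δ ∣ s ^ 2 - μ * N.adjugate i i * M.adjugate j j) (π : AA) (hπ : Irreducible π) :
    LocUni ((fromBlocks N 0 0 (-(μ • M))).map (algebraMap AA KK)) π := by
  by_cases h1 : π ∣ δ
  · -- the discriminant prime
    have hass : δ ∣ π := (hπ.dvd_symm hδ.irreducible h1)
    have hsδ : ¬ δ ∣ s := by
      intro h
      have h2 : δ ∣ μ * N.adjugate i i * M.adjugate j j := by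
        have h3 : μ * N.adjugate i i * M.adjugate j j =
          s ^ 2 - (s ^ 2 - μ * N.adjugate i i * M.adjugate j j) := by ring
        rw [h3]
        exact dvd_sub (Dvd.dvd.trans h (dvd_pow_self s two_ne_zero)) hs
      rcases hδ.dvd_or_dvd h2 with h | h
      · rcases hδ.dvd_or_dvd h with h | h
        · exact hμδ h
        · exact hi h
      · exact hj h
    have h1' : ¬ δ ∣ 1 := fun h => hδ.not_isUnit (isUnit_of_dvd_one h)
    obtain ⟨Λ, hΛ1, hΛ2, hΛ3, s', hs'1, hs'2⟩ := loc_delta (F := KK) hN hM (μ := μ) (d1 := 1)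
      (d2 := 1) (s := μ * M.adjugate j j) (t := s) (k := i) (l := j) hδ (by rw [hdN, mul_one])
      (by rw [hdM, mul_one]) h1' h1' hi hj hμδ hsδ (by
        obtain ⟨q, hq⟩ := hs
        refine ⟨-(q * (μ * M.adjugate j j)), ?_⟩
        linear_combination (-(μ * M.adjugate j j)) * hq)
    exact ⟨Λ, hΛ1, hΛ2, hΛ3, s', fun h => hs'1 (hass.trans h), hs'2⟩
  · by_cases h2 : π ∣ μ
    · -- a prime factor of the multiplier
      obtain ⟨g, h, hh, hgh⟩ := hsp π hπ.prime h2
      have : Fact (Irreducible π) := ⟨hπ⟩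
      set f : AA →+* AdjoinRoot π := AdjoinRoot.mk π with hf
      have hf0 : ∀ x, f x = 0 ↔ π ∣ x := fun x => AdjoinRoot.mk_eq_zero
      have hT : Pool.Agent.Helper27.PUR.Tern (AdjoinRoot π) := tern_residue π
      have hdetf : f M.det ≠ 0 := by
        rw [Ne, hf0, hdM]; exact h1
      have h2' : (2 : AdjoinRoot π) ≠ 0 := by
        have h3 : (2 : AdjoinRoot π) = algebraMap kx (AdjoinRoot π) 2 := (map_ofNat _ 2).symm
        rw [h3]
        exact (map_ne_zero _).mpr two_ne_zero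
      have hMf : (M.map f).det = f M.det := by
        rw [RingHom.map_det, RingHom.mapMatrix_apply]
      obtain ⟨r0, hr0⟩ := hm
      have hmeta : Mtb (M.map f) := by
        refine meta_of_disc h2' hT r0 m (M.map f) ?_ ?_ (by rw [hr0]; ring) ?_
        · rw [← Matrix.transpose_map, hM.eq]
        · rw [hMf]; exact (isUnit_iff_ne_zero (G₀ := AdjoinRoot π)).mpr (fun h => hdetf h)
        · obtain ⟨r, hr⟩ := isSquare_neg_one
          have hr' : f r * f r = -1 := by rw [← map_mul, ← hr, map_neg, map_one]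
          have hfh : f h ≠ 0 := by rw [Ne, hf0]; exact hh
          have hfg : f g ^ 2 = f δ * f h ^ 2 := by
            have := (hf0 _).mpr hgh
            rw [map_sub, map_mul, map_pow, map_pow] at this
            exact sub_eq_zero.mp this
          refine ⟨f r ^ r0 * f g / f h, ?_⟩
          rw [hMf, hdM, ← hr']
          field_simp
          rw [hfg]
          ring
      obtain ⟨r, u, hu1, hu2⟩ := lift_lagr f (AdjoinRoot.mk_surjective) hf0 M hM hdetf hmeta
      obtain ⟨μ', hμ'⟩ := h2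
      refine loc_pi hN hM hπ.prime hμ' ?_ (by rw [hdN]; exact h1) (by rw [hdM]; exact h1) u hu1 hu2
      rintro ⟨q, hq⟩
      have := hμ π ⟨q, by rw [hμ', hq]; ring⟩
      exact hπ.not_isUnit this
    · refine loc_other (block_symm hN hM μ) ?_
      rw [det_block_gen, hdN, hdM]
      intro h
      rcases hπ.prime.dvd_or_dvd h with h | h
      · exact h1 h
      · rcases hπ.prime.dvd_or_dvd h with h | h
        · have h3 := hπ.prime.dvd_of_dvd_pow h
          exact h2 ((dvd_neg).mp h3)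
        · exact h1 h

/-- **Purity**, arbitrary even sizes: the form `N - μ M` over `C(x, y)` is hyperbolic -/
theorem meta_gen (hn : Even (Fintype.card n)) (hm : Even (Fintype.card m)) (N : Matrix n n AA)
    (M : Matrix m m AA) (hN : N.IsSymm) (hM : M.IsSymm) (δ μ s : AA) (hδ : Prime δ)
    (hdN : N.det = δ) (hdM : M.det = δ) (hμ : μ ≠ 0) (hμδ : ¬ δ ∣ μ)
    (hsp : ∀ π : AA, Prime π → π ∣ μ → ∃ g h : AA, ¬ π ∣ h ∧ π ∣ g ^ 2 - δ * h ^ 2)
    (i : n) (j : m) (hi : ¬ δ ∣ N.adjugate i i) (hj : ¬ δ ∣ M.adjugate j j)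
    (hs : δ ∣ s ^ 2 - μ * N.adjugate i i * M.adjugate j j) :
    Mtb ((fromBlocks N 0 0 (-(μ • M))).map (algebraMap AA KK)) := by
  obtain ⟨μ₀, ν, hμν, hsq⟩ := exists_sqfree μ hμ
  have hμ₀ : μ₀ ≠ 0 := by
    rintro rfl
    exact hμ (by rw [hμν, zero_mul])
  have hν : ν ≠ 0 := by
    rintro rfl
    exact hμ (by rw [hμν]; ring)
  have hδμ₀ : ¬ δ ∣ μ₀ := fun h => hμδ (by rw [hμν]; exact Dvd.dvd.mul_right h _)
  have hδν : ¬ δ ∣ ν := fun h => hμδ (by
    rw [hμν]; exact Dvd.dvd.mul_left (Dvd.dvd.trans h (dvd_pow_self ν two_ne_zero)) _)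
  obtain ⟨a, b, hab⟩ : ∃ a b : AA, a * δ + b * ν = 1 := by
    have : Fact (Irreducible δ) := ⟨hδ.irreducible⟩
    have h1 : AdjoinRoot.mk δ ν ≠ 0 := by
      rw [Ne, AdjoinRoot.mk_eq_zero]; exact hδν
    obtain ⟨b, hb⟩ := AdjoinRoot.mk_surjective (g := δ) (AdjoinRoot.mk δ ν)⁻¹
    have h2 : AdjoinRoot.mk δ (1 - b * ν) = 0 := by
      rw [map_sub, map_mul, map_one, hb, inv_mul_cancel₀ (fun h => h1 h), sub_self]
    obtain ⟨a, ha⟩ := AdjoinRoot.mk_eq_zero.mp h2
    exact ⟨a, b, by linear_combination -ha⟩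
  have hs' : δ ∣ (s * b) ^ 2 - μ₀ * N.adjugate i i * M.adjugate j j := by
    obtain ⟨q, hq⟩ := hs
    have e1 : (s * b) ^ 2 - μ₀ * N.adjugate i i * M.adjugate j j =
        δ * (b ^ 2 * q - μ₀ * N.adjugate i i * M.adjugate j j * (a * (b * ν + 1))) := by
      rw [hμν] at hq
      linear_combination (b ^ 2) * hq +
        μ₀ * N.adjugate i i * M.adjugate j j * (b * ν + 1) * hab
    rw [e1]
    exact dvd_mul_right _ _
  have hloc := loc_gen hm N M hN hM δ μ₀ (s * b) hδ hdN hdM hsq hδμ₀ (fun π hπ h => hsp π hπ (by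
      rw [hμν]; exact Dvd.dvd.mul_right h _)) i j hi hj hs'
  obtain ⟨r1, hr1⟩ := hn
  obtain ⟨r2, hr2⟩ := hm
  have hmeta : Mtb ((fromBlocks N 0 0 (-(μ₀ • M))).map (algebraMap AA KK)) := by
    refine meta_of_locUni (F := KK) two_ne_zero tern_kx (r1 + r2)
      (by rw [Fintype.card_sum, hr1, hr2]; ring) _ (block_symm hN hM μ₀) ?_ ?_ hloc
    · rw [det_block_gen, hdN, hdM]
      exact mul_ne_zero hδ.ne_zero
        (mul_ne_zero (pow_ne_zero _ (neg_ne_zero.mpr hμ₀)) hδ.ne_zero)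
    · obtain ⟨r, hr⟩ := isSquare_neg_one
      refine ⟨r ^ (r1 + r2) * δ * μ₀ ^ r2, ?_⟩
      have e1 : (-μ₀) ^ (r2 + r2) = μ₀ ^ r2 * μ₀ ^ r2 := by
        exact neg_pow_aux μ₀ r2
      have e2 : (-1 : AA) ^ (r1 + r2) = r ^ (r1 + r2) * r ^ (r1 + r2) := by
        rw [hr, mul_pow]
      rw [det_block_gen, hdN, hdM, hr2, e1, e2]
      ring
  -- rescale
  have hνF : algebraMap AA KK ν ≠ 0 := by
    rw [Ne, map_eq_zero_iff _ (IsFractionRing.injective AA KK)]; exact hν
  set P : Matrix (n ⊕ m) (n ⊕ m) KK := fromBlocks 1 0 0 ((algebraMap AA KK ν)⁻¹ • 1) with hP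
  refine Mtb.of_congr (P := P) ?_ ?_
  · rw [hP, det_fromBlocks_zero₂₁, det_one, one_mul, det_smul, det_one, mul_one]
    exact IsUnit.mk0 _ (pow_ne_zero _ (inv_ne_zero hνF))
  · have : Pᵀ * (fromBlocks N 0 0 (-(μ • M))).map (algebraMap AA KK) * P =
        (fromBlocks N 0 0 (-(μ₀ • M))).map (algebraMap AA KK) := by
      have e1 : (-(μ • M)).map (algebraMap AA KK) =
          (algebraMap AA KK ν * algebraMap AA KK ν) • (-(μ₀ • M)).map (algebraMap AA KK) := by
        ext i j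
        simp only [Matrix.smul_apply, Matrix.map_apply, Matrix.neg_apply, smul_eq_mul, hμν, map_neg,
          map_mul, map_pow]
        ring
      rw [hP, fromBlocks_map, fromBlocks_map, fromBlocks_transpose, fromBlocks_multiply,
        fromBlocks_multiply, e1]
      simp only [transpose_one, transpose_zero, transpose_smul, Matrix.one_mul, Matrix.mul_one,
        Matrix.zero_mul, Matrix.mul_zero, add_zero, zero_add, Matrix.smul_mul, Matrix.mul_smul,
        smul_smul, Matrix.map_zero _ (map_zero _), smul_zero]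
      congr 1
      have e2 : (algebraMap AA KK ν)⁻¹ * (algebraMap AA KK ν * algebraMap AA KK ν *
          (algebraMap AA KK ν)⁻¹) = 1 := by field_simp
      rw [e2, one_smul]
    rw [this]
    exact hmeta

end Pool.Agent.Helper64.HA
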