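import Pool.Agent.Helper27.PUR.Glob

set_option autoImplicit false
set_option linter.unusedSectionVars false
set_option linter.unusedVariables false

/-!
Local unimodularity of symmetric forms over the fraction field of a domain: explicit lattices.
-/

namespace Pool.Agent.Helper64.HA

open Matrix Pool.Agent.Helper27.PUR

section Defs

variable (R : Type*) {F : Type*} [CommRing R] [Field F] [Algebra R F] {ι : Type*}

/-- the standard lattice -/
def lam0 (ι : Type*) : Submodule R (ι → F) := LinearMap.range ((Algebra.linearMap R F).compLeft ι)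

theorem mem_lam0 {v : ι → F} : v ∈ lam0 R ι ↔ ∃ u : ι → R, ∀ i, algebraMap R F (u i) = v i := by
  constructor
  · rintro ⟨u, rfl⟩
    exact ⟨u, fun i => rfl⟩
  · rintro ⟨u, hu⟩
    exact ⟨u, funext hu⟩

end Defs

section Basic

variable {R : Type*} {F : Type*} [CommRing R] [Field F] [Algebra R F]
  {ι : Type*} [Fintype ι]

theorem ig_add {x y : F} (hx : ∃ r : R, algebraMap R F r = x) (hy : ∃ r : R, algebraMap R F r = y) :
    ∃ r : R, algebraMap R F r = x + y := by
  obtain ⟨r, rfl⟩ := hx
  obtain ⟨s, rfl⟩ := hy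
  exact ⟨r + s, map_add _ _ _⟩

theorem ig_smul {x : F} (a : R) (hx : ∃ r : R, algebraMap R F r = x) :
    ∃ r : R, algebraMap R F r = a • x := by
  obtain ⟨r, rfl⟩ := hx
  exact ⟨a * r, by rw [map_mul, Algebra.smul_def]⟩

theorem smul_dot (a : R) (x y : ι → F) : (a • x) ⬝ᵥ y = a • (x ⬝ᵥ y) := by
  simp only [dotProduct, Finset.smul_sum, Pi.smul_apply, smul_mul_assoc]

theorem dot_smul (a : R) (x y : ι → F) : x ⬝ᵥ (a • y) = a • (x ⬝ᵥ y) := by
  simp only [dotProduct, Finset.smul_sum, Pi.smul_apply, mul_smul_comm]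

theorem mulVec_smulR (G : Matrix ι ι F) (a : R) (x : ι → F) : G *ᵥ (a • x) = a • (G *ᵥ x) := by
  funext i
  simp only [mulVec, dot_smul, Pi.smul_apply]

/-- symmetric -/
theorem dot_mulVec_comm {S : Type*} [CommRing S] {G : Matrix ι ι S} (hG : G.IsSymm)
    (x y : ι → S) : x ⬝ᵥ G *ᵥ y = y ⬝ᵥ G *ᵥ x := by
  rw [dotProduct_mulVec, ← mulVec_transpose, hG.eq, dotProduct_comm]

theorem dot_map (u w : ι → R) :
    (fun i => algebraMap R F (u i)) ⬝ᵥ (fun i => algebraMap R F (w i)) =
      algebraMap R F (u ⬝ᵥ w) := by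
  simp [dotProduct]

theorem mulVec_map' (G : Matrix ι ι R) (w : ι → R) :
    G.map (algebraMap R F) *ᵥ (fun i => algebraMap R F (w i)) =
      fun i => algebraMap R F ((G *ᵥ w) i) := by
  funext i
  simp [mulVec, dotProduct]

/-- A criterion: the lattice generated by the standard lattice and finitely many vectors. -/
theorem locUni_of {G : Matrix ι ι R} (hG : G.IsSymm) {π : R} {J : Type*} [Finite J]
    (w : J → ι → F)
    (h1 : ∀ j i, ∃ r : R, algebraMap R F r = (G.map (algebraMap R F) *ᵥ w j) i)
    (h2 : ∀ j k, ∃ r : R, algebraMap R F r = w j ⬝ᵥ G.map (algebraMap R F) *ᵥ w k)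
    {s : R} (hs : ¬ π ∣ s)
    (h3 : ∀ v : ι → F, (∀ i, ∃ r : R, algebraMap R F r = (G.map (algebraMap R F) *ᵥ v) i) →
      (∀ j, ∃ r : R, algebraMap R F r = w j ⬝ᵥ G.map (algebraMap R F) *ᵥ v) →
      s • v ∈ lam0 R ι ⊔ Submodule.span R (Set.range w)) :
    LocUni (G.map (algebraMap R F)) π := by
  classical
  have hGF : (G.map (algebraMap R F)).IsSymm := by
    rw [Matrix.IsSymm, ← Matrix.transpose_map, hG.eq]
  have hint : ∀ v : ι → F,
      (∀ i, ∃ r : R, algebraMap R F r = (G.map (algebraMap R F) *ᵥ v) i) →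
      (∀ j, ∃ r : R, algebraMap R F r = w j ⬝ᵥ G.map (algebraMap R F) *ᵥ v) →
      ∀ x ∈ lam0 R ι ⊔ Submodule.span R (Set.range w),
      ∃ r : R, algebraMap R F r = x ⬝ᵥ G.map (algebraMap R F) *ᵥ v := by
    intro v hv1 hv2
    let P : Submodule R (ι → F) :=
      { carrier := {x | ∃ r : R, algebraMap R F r = x ⬝ᵥ G.map (algebraMap R F) *ᵥ v}
        add_mem' := by
          intro a b ha hb
          change ∃ r : R, algebraMap R F r = (a + b) ⬝ᵥ G.map (algebraMap R F) *ᵥ v
          rw [add_dotProduct]
          exact ig_add ha hb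
        zero_mem' := ⟨0, by simp⟩
        smul_mem' := by
          intro c a ha
          change ∃ r : R, algebraMap R F r = (c • a) ⬝ᵥ G.map (algebraMap R F) *ᵥ v
          rw [smul_dot]
          exact ig_smul c ha }
    have hP : lam0 R ι ⊔ Submodule.span R (Set.range w) ≤ P := by
      refine sup_le ?_ ?_
      · intro y hy
        rw [mem_lam0] at hy
        obtain ⟨u, hu⟩ := hy
        choose g hg using hv1
        refine ⟨u ⬝ᵥ g, ?_⟩
        rw [← dot_map]
        congr 1
        · exact funext hu
        · exact funext hg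
      · rw [Submodule.span_le]
        rintro _ ⟨j, rfl⟩
        exact hv2 j
    intro x hx
    exact hP hx
  have hstd : ∀ i : ι, (Pi.single i 1 : ι → F) ∈ lam0 R ι := by
    intro i
    rw [mem_lam0]
    refine ⟨Pi.single i 1, fun j => ?_⟩
    by_cases h : j = i
    · subst h; simp
    · simp [h]
  refine ⟨lam0 R ι ⊔ Submodule.span R (Set.range w), ?_, ?_, ?_, s, hs, ?_⟩
  · refine Submodule.FG.sup ?_ (Submodule.fg_span (Set.finite_range w))
    rw [lam0, LinearMap.range_eq_map]
    exact (Module.Finite.fg_top (R := R) (M := ι → R)).map _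
  · rw [eq_top_iff]
    intro v _
    have hv : v = ∑ i, v i • (Pi.single i 1 : ι → F) := by
      conv_lhs => rw [pi_eq_sum_univ v]
      refine Finset.sum_congr rfl fun i _ => ?_
      congr 1
      funext j
      rw [Pi.single_apply]
      simp only [eq_comm]
    rw [hv]
    refine Submodule.sum_mem _ fun i _ => Submodule.smul_mem _ _ (Submodule.subset_span ?_)
    exact Submodule.mem_sup_left (hstd i)
  · intro x hx y hy
    have hy1 : ∀ i, ∃ r : R, algebraMap R F r = (G.map (algebraMap R F) *ᵥ y) i := by
      intro i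
      let P : Submodule R (ι → F) :=
        { carrier := {x | ∃ r : R, algebraMap R F r = (G.map (algebraMap R F) *ᵥ x) i}
          add_mem' := by
            intro a b ha hb
            change ∃ r : R, algebraMap R F r = (G.map (algebraMap R F) *ᵥ (a + b)) i
            rw [mulVec_add]
            exact ig_add ha hb
          zero_mem' := ⟨0, by simp⟩
          smul_mem' := by
            intro c a ha
            change ∃ r : R, algebraMap R F r = (G.map (algebraMap R F) *ᵥ (c • a)) i
            rw [mulVec_smulR]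
            exact ig_smul c ha }
      have hP : lam0 R ι ⊔ Submodule.span R (Set.range w) ≤ P := by
        refine sup_le ?_ ?_
        · intro y hy
          rw [mem_lam0] at hy
          obtain ⟨u, hu⟩ := hy
          refine ⟨(G *ᵥ u) i, ?_⟩
          have : y = fun i => algebraMap R F (u i) := (funext hu).symm
          rw [this, mulVec_map']
        · rw [Submodule.span_le]
          rintro _ ⟨j, rfl⟩
          exact h1 j i
      exact hP hy
    refine hint y hy1 ?_ x hx
    intro j
    rw [dot_mulVec_comm hGF]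
    exact hint (w j) (h1 j) (fun k => h2 k j) y hy
  · intro v hv
    refine h3 v ?_ ?_
    · intro i
      obtain ⟨r, hr⟩ := hv _ (Submodule.mem_sup_left (hstd i))
      refine ⟨r, ?_⟩
      rw [hr, single_one_dotProduct]
    · intro j
      exact hv _ (Submodule.mem_sup_right (Submodule.subset_span ⟨j, rfl⟩))

end Basic

section Adj

variable {n : Type*} [Fintype n] [DecidableEq n]

theorem adj_ker {S : Type*} [CommRing S] [IsDomain S] {N : Matrix n n S} {k : n}
    (hA : N.adjugate k k ≠ 0) {z : n → S} (hz : N *ᵥ z = 0) (hk : z k = 0) : z = 0 := by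
  rw [adjugate_apply] at hA
  refine eq_zero_of_mulVec_eq_zero hA ?_
  funext i
  by_cases hi : i = k
  · subst hi
    simp [mulVec, updateRow_self, hk]
  · have h1 : (N.updateRow k (Pi.single k 1)) i = N i := by
      rw [updateRow_ne hi]
    have h2 := congrFun hz i
    simp only [mulVec, h1] at h2 ⊢
    exact h2

theorem adj_prop {R : Type*} [CommRing R] [IsDomain R] {δ : R} (hδ : Prime δ) {N : Matrix n n R}
    {k : n} (hA : ¬ δ ∣ N.adjugate k k) (hdet : δ ∣ N.det) {z : n → R}
    (hz : ∀ i, δ ∣ (N *ᵥ z) i) (i : n) :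
    δ ∣ N.adjugate k k * z i - z k * N.adjugate i k := by
  have hprime : (Ideal.span {δ}).IsPrime := (Ideal.span_singleton_prime hδ.ne_zero).mpr hδ
  set f : R →+* R ⧸ Ideal.span {δ} := Ideal.Quotient.mk _ with hf
  have hf0 : ∀ x, f x = 0 ↔ δ ∣ x := by
    intro x
    rw [hf, Ideal.Quotient.eq_zero_iff_mem, Ideal.mem_span_singleton]
  set y : n → R := fun i => N.adjugate k k * z i - z k * N.adjugate i k with hy
  have hNy : ∀ j, δ ∣ (N *ᵥ y) j := by
    intro j
    have h1 : (N *ᵥ y) j = N.adjugate k k * (N *ᵥ z) j - z k * (N * N.adjugate) j k := by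
      simp only [hy, mulVec, dotProduct, Matrix.mul_apply, Finset.mul_sum]
      rw [← Finset.sum_sub_distrib]
      refine Finset.sum_congr rfl fun l _ => ?_
      ring
    rw [h1, mul_adjugate, Matrix.smul_apply, smul_eq_mul]
    exact dvd_sub (Dvd.dvd.mul_left (hz j) _) (Dvd.dvd.mul_left (Dvd.dvd.mul_right hdet _) _)
  have h2 : (fun i => f (y i)) = 0 := by
    refine adj_ker (N := N.map f) (k := k) ?_ ?_ ?_
    · have : (N.map f).adjugate k k = f (N.adjugate k k) := by
        have := congrFun (congrFun (f.map_adjugate N) k) k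
        rw [RingHom.mapMatrix_apply, RingHom.mapMatrix_apply] at this
        exact this.symm
      rw [this, Ne, hf0]
      exact hA
    · funext j
      have h3 : (N.map f *ᵥ fun i => f (y i)) j = f ((N *ᵥ y) j) := by
        simp [mulVec, dotProduct]
      rw [h3, Pi.zero_apply, hf0]
      exact hNy j
    · simp only [hy]
      rw [mul_comm, sub_self, map_zero]
  have h4 := congrFun h2 i
  simp only [Pi.zero_apply] at h4
  rw [hf0] at h4
  exact h4

end Adj

section Delta

variable {R : Type*} {F : Type*} [CommRing R] [IsDomain R] [Field F] [Algebra R F]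
  [IsFractionRing R F] {n m : Type*} [Fintype n] [DecidableEq n] [Fintype m] [DecidableEq m]

theorem block_symm {N : Matrix n n R} {M : Matrix m m R} (hN : N.IsSymm) (hM : M.IsSymm) (μ : R) :
    (fromBlocks N 0 0 (-(μ • M))).IsSymm := by
  rw [Matrix.IsSymm, fromBlocks_transpose, hN.eq, transpose_neg, transpose_smul, hM.eq]
  simp

/-- Cramer's rule for an integral right hand side -/
theorem cramerInv (N : Matrix n n R) (v : n → F) (g : n → R)
    (h : N.map (algebraMap R F) *ᵥ v = fun i => algebraMap R F (g i)) (i : n) :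
    algebraMap R F N.det * v i = algebraMap R F ((N.adjugate *ᵥ g) i) := by
  have h1 : (N.adjugate.map (algebraMap R F)) *ᵥ (N.map (algebraMap R F) *ᵥ v) =
      fun i => algebraMap R F ((N.adjugate *ᵥ g) i) := by
    rw [h, mulVec_map']
  rw [mulVec_mulVec, ← Matrix.map_mul, adjugate_mul] at h1
  have h2 := congrFun h1 i
  rw [← h2, mulVec, dotProduct, Finset.sum_eq_single i]
  · simp
  · intro j _ hj
    simp [Matrix.one_apply, Ne.symm hj]
  · intro h
    exact absurd (Finset.mem_univ i) h

/-- the lattice at the discriminant prime -/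
theorem loc_delta {N : Matrix n n R} {M : Matrix m m R} (hN : N.IsSymm) (hM : M.IsSymm)
    {δ d1 d2 μ s t : R} (hδ : Prime δ) (hd1 : N.det = δ * d1) (hd2 : M.det = δ * d2)
    (h1 : ¬ δ ∣ d1) (h2 : ¬ δ ∣ d2) {k : n} {l : m} (hA : ¬ δ ∣ N.adjugate k k)
    (hB : ¬ δ ∣ M.adjugate l l) (hμ : ¬ δ ∣ μ) (ht : ¬ δ ∣ t)
    (h : δ ∣ s ^ 2 * (N.adjugate k k * d1) - t ^ 2 * (μ * M.adjugate l l * d2)) :
    LocUni ((fromBlocks N 0 0 (-(μ • M))).map (algebraMap R F)) δ := by
  have hinj : Function.Injective (algebraMap R F) := IsFractionRing.injective R F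
  have hδF : algebraMap R F δ ≠ 0 := by
    rw [Ne, map_eq_zero_iff _ hinj]; exact hδ.ne_zero
  set G := fromBlocks N 0 0 (-(μ • M)) with hG
  set A := N.adjugate k k with hAdef
  set B := M.adjugate l l with hBdef
  set e : n ⊕ m → R := Sum.elim (fun i => s * N.adjugate i k) (fun j => t * M.adjugate j l) with he
  set g : n ⊕ m → R := Sum.elim (fun i => s * d1 * (if i = k then 1 else 0))
    (fun j => -(μ * t * d2 * (if j = l then 1 else 0))) with hg
  have hGe : ∀ i, (G *ᵥ e) i = δ * g i := by
    rintro (i | j)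
    · have : (G *ᵥ e) (Sum.inl i) = s * (N * N.adjugate) i k := by
        rw [hG, fromBlocks_mulVec]
        simp only [Sum.elim_inl, he, mulVec, dotProduct, Function.comp, Matrix.zero_apply, zero_mul,
          Finset.sum_const_zero, Pi.add_apply, add_zero, Matrix.mul_apply, Finset.mul_sum]
        refine Finset.sum_congr rfl fun l _ => ?_
        ring
      rw [this, mul_adjugate, Matrix.smul_apply, Matrix.one_apply, hd1, hg]
      simp only [Sum.elim_inl, smul_eq_mul]
      ring
    · have : (G *ᵥ e) (Sum.inr j) = -(μ * t * (M * M.adjugate) j l) := by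
        rw [hG, fromBlocks_mulVec]
        simp only [Sum.elim_inr, he, mulVec, dotProduct, Function.comp, Matrix.zero_apply, zero_mul,
          Finset.sum_const_zero, Pi.add_apply, zero_add, Matrix.mul_apply, Finset.mul_sum,
          Matrix.neg_apply, Matrix.smul_apply, smul_eq_mul, neg_mul]
        rw [Finset.sum_neg_distrib]
        congr 1
        refine Finset.sum_congr rfl fun l _ => ?_
        ring
      rw [this, mul_adjugate, Matrix.smul_apply, Matrix.one_apply, hd2, hg]
      simp only [Sum.elim_inr, smul_eq_mul]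
      ring
  obtain ⟨q, hq⟩ := h
  have heg : e ⬝ᵥ g = δ * q := by
    rw [← hq, dotProduct, Fintype.sum_sum_type]
    have e1 : ∑ i : n, e (Sum.inl i) * g (Sum.inl i) = s ^ 2 * (A * d1) := by
      rw [Finset.sum_eq_single k]
      · simp only [he, hg, Sum.elim_inl, if_true]
        ring
      · intro i _ hi
        simp only [he, hg, Sum.elim_inl, if_neg hi, mul_zero]
      · intro hk
        exact absurd (Finset.mem_univ k) hk
    have e2 : ∑ i : m, e (Sum.inr i) * g (Sum.inr i) = -(t ^ 2 * (μ * B * d2)) := by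
      rw [Finset.sum_eq_single l]
      · simp only [he, hg, Sum.elim_inr, if_true]
        ring
      · intro i _ hi
        simp only [he, hg, Sum.elim_inr, if_neg hi, mul_zero, neg_zero]
      · intro hk
        exact absurd (Finset.mem_univ l) hk
    rw [e1, e2]
    ring
  set w : Unit → (n ⊕ m → F) := fun _ i => (algebraMap R F δ)⁻¹ * algebraMap R F (e i) with hw
  have hwe : ∀ u, w u = (algebraMap R F δ)⁻¹ • (fun i => algebraMap R F (e i)) := fun u => rfl
  have hGw : ∀ u i, (G.map (algebraMap R F) *ᵥ w u) i = algebraMap R F (g i) := by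
    intro u i
    rw [hwe u, mulVec_smul, mulVec_map', Pi.smul_apply, hGe, map_mul, smul_eq_mul,
      inv_mul_cancel_left₀ hδF]
  refine locUni_of (block_symm hN hM μ) w (fun u i => ⟨g i, (hGw u i).symm⟩) (fun u u' => ⟨q, ?_⟩)
    (s := A * d1 * B * μ * d2 * t) ?_ ?_
  · have : G.map (algebraMap R F) *ᵥ w u' = fun i => algebraMap R F (g i) := funext (hGw u')
    rw [this, hwe u, smul_dotProduct, dot_map, heg, map_mul, smul_eq_mul, inv_mul_cancel_left₀ hδF]
  · intro hdvd
    rcases hδ.dvd_or_dvd hdvd with h' | h'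
    · rcases hδ.dvd_or_dvd h' with h' | h'
      · rcases hδ.dvd_or_dvd h' with h' | h'
        · rcases hδ.dvd_or_dvd h' with h' | h'
          · rcases hδ.dvd_or_dvd h' with h' | h'
            · exact hA h'
            · exact h1 h'
          · exact hB h'
        · exact hμ h'
      · exact h2 h'
    · exact ht h'
  · intro v hv1 hv2
    choose g' hg' using hv1
    obtain ⟨r, hr⟩ := hv2 ()
    have hGv : G.map (algebraMap R F) *ᵥ v = fun i => algebraMap R F (g' i) :=
      (funext hg').symm
    rw [hGv, hwe (), smul_dotProduct, dot_map, smul_eq_mul] at hr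
    have hr' : e ⬝ᵥ g' = δ * r := by
      apply hinj
      rw [map_mul, hr, mul_inv_cancel_left₀ hδF]
    set z : n → R := N.adjugate *ᵥ (g' ∘ Sum.inl) with hz
    set z' : m → R := M.adjugate *ᵥ (g' ∘ Sum.inr) with hz'
    have hNa : N.adjugate.IsSymm := by
      rw [Matrix.IsSymm, adjugate_transpose, hN.eq]
    have hMa : M.adjugate.IsSymm := by
      rw [Matrix.IsSymm, adjugate_transpose, hM.eq]
    have hsum : s * z k + t * z' l = δ * r := by
      rw [← hr', he, hz, hz']
      simp only [dotProduct, Fintype.sum_sum_type, Sum.elim_inl, Sum.elim_inr, mulVec,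
        Function.comp, Finset.mul_sum]
      congr 1
      · refine Finset.sum_congr rfl fun i _ => ?_
        rw [hNa.apply i k]; ring
      · refine Finset.sum_congr rfl fun i _ => ?_
        rw [hMa.apply i l]; ring
    -- the two components
    have hv1 : N.map (algebraMap R F) *ᵥ (v ∘ Sum.inl) =
        fun i => algebraMap R F (g' (Sum.inl i)) := by
      funext i
      have h0 := hg' (Sum.inl i)
      rw [h0, fromBlocks_map, fromBlocks_mulVec]
      simp [mulVec, dotProduct]
    have hv2 : M.map (algebraMap R F) *ᵥ (algebraMap R F (-μ) • (v ∘ Sum.inr)) =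
        fun i => algebraMap R F (g' (Sum.inr i)) := by
      funext i
      have h0 := hg' (Sum.inr i)
      rw [h0, fromBlocks_map, fromBlocks_mulVec]
      simp only [mulVec, dotProduct, Function.comp, Sum.elim_inr, Pi.add_apply, Matrix.map_apply,
        Matrix.zero_apply, map_zero, zero_mul, Finset.sum_const_zero, zero_add, Matrix.neg_apply,
        Matrix.smul_apply, smul_eq_mul, map_neg, map_mul, Pi.smul_apply]
      refine Finset.sum_congr rfl fun j _ => ?_
      ring
    have hc1 : ∀ i, algebraMap R F (δ * d1) * v (Sum.inl i) = algebraMap R F (z i) := by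
      intro i
      have h3 := cramerInv N _ _ hv1 i
      rw [hd1] at h3
      exact h3
    have hc2 : ∀ i, algebraMap R F (δ * d2) * (algebraMap R F (-μ) * v (Sum.inr i)) =
        algebraMap R F (z' i) := by
      intro i
      have h3 := cramerInv M _ _ hv2 i
      rw [hd2] at h3
      exact h3
    have hz1 : ∀ i, δ ∣ A * z i - z k * N.adjugate i k := by
      intro i
      refine adj_prop hδ hA ⟨d1, hd1⟩ (fun j => ?_) i
      rw [hz, mulVec_mulVec, mul_adjugate, smul_mulVec, one_mulVec, Pi.smul_apply, smul_eq_mul, hd1,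
        mul_assoc]
      exact dvd_mul_right _ _
    have hz2 : ∀ i, δ ∣ B * z' i - z' l * M.adjugate i l := by
      intro i
      refine adj_prop hδ hB ⟨d2, hd2⟩ (fun j => ?_) i
      rw [hz', mulVec_mulVec, mul_adjugate, smul_mulVec, one_mulVec, Pi.smul_apply, smul_eq_mul,
        hd2, mul_assoc]
      exact dvd_mul_right _ _
    choose u1 hu1 using hz1
    choose u2 hu2 using hz2
    have hX : δ ∣ B * μ * d2 * t * z k + A * d1 * s * z' l := by
      have hX1 : δ ∣ t * (B * μ * d2 * t * z k + A * d1 * s * z' l) := by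
        have e1 : t * (B * μ * d2 * t * z k + A * d1 * s * z' l) =
            A * d1 * s * (s * z k + t * z' l) -
              (s ^ 2 * (A * d1) - t ^ 2 * (μ * B * d2)) * z k := by ring
        rw [e1, hsum, hq]
        exact dvd_sub ⟨A * d1 * s * r, by ring⟩ ⟨q * z k, by ring⟩
      exact (hδ.dvd_or_dvd hX1).resolve_left ht
    obtain ⟨x, hx⟩ := hX
    rw [Submodule.mem_sup]
    refine ⟨fun i => algebraMap R F (Sum.elim (fun i => B * μ * d2 * t * u1 i + N.adjugate i k * x)
      (fun j => -(A * d1 * t * u2 j)) i), ?_, (-(A * d1 * z' l)) • w (), ?_, ?_⟩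
    · rw [mem_lam0]
      exact ⟨_, fun i => rfl⟩
    · exact Submodule.smul_mem _ _ (Submodule.subset_span ⟨(), rfl⟩)
    · funext i
      apply mul_left_cancel₀ hδF
      rcases i with i | j
      · rw [Pi.add_apply, Pi.smul_apply, Pi.smul_apply, Algebra.smul_def, Algebra.smul_def]
        simp only [Sum.elim_inl, hw, he]
        have e1 : algebraMap R F δ * (algebraMap R F (-(A * d1 * z' l)) *
            ((algebraMap R F δ)⁻¹ * algebraMap R F (s * N.adjugate i k))) =
            algebraMap R F (-(A * d1 * z' l) * (s * N.adjugate i k)) := by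
          rw [map_mul (algebraMap R F) (-(A * d1 * z' l))]; field_simp
        rw [mul_add, e1]
        have e2 : algebraMap R F δ * (algebraMap R F (A * d1 * B * μ * d2 * t) * v (Sum.inl i)) =
            algebraMap R F (A * B * μ * d2 * t * z i) := by
          have := hc1 i
          rw [map_mul (algebraMap R F) (A * B * μ * d2 * t) (z i), ← this]
          simp only [map_mul]; ring
        rw [e2, ← map_mul, ← map_add]
        congr 1
        linear_combination (-(B * μ * d2 * t)) * hu1 i + (-(N.adjugate i k)) * hx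
      · rw [Pi.add_apply, Pi.smul_apply, Pi.smul_apply, Algebra.smul_def, Algebra.smul_def]
        simp only [Sum.elim_inr, hw, he]
        have e1 : algebraMap R F δ * (algebraMap R F (-(A * d1 * z' l)) *
            ((algebraMap R F δ)⁻¹ * algebraMap R F (t * M.adjugate j l))) =
            algebraMap R F (-(A * d1 * z' l) * (t * M.adjugate j l)) := by
          rw [map_mul (algebraMap R F) (-(A * d1 * z' l))]; field_simp
        rw [mul_add, e1]
        have e2 : algebraMap R F δ * (algebraMap R F (A * d1 * B * μ * d2 * t) * v (Sum.inr j)) =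
            algebraMap R F (-(A * d1 * B * t * z' j)) := by
          have := hc2 j
          rw [map_neg, map_mul (algebraMap R F) (A * d1 * B * t) (z' j), ← this]
          simp only [map_mul, map_neg]; ring
        rw [e2, ← map_mul, ← map_add]
        congr 1
        linear_combination (A * d1 * t) * hu2 j

/-- the standard lattice is unimodular away from the determinant -/
theorem loc_other {G : Matrix n n R} (hG : G.IsSymm) {π : R} (h : ¬ π ∣ G.det) :
    LocUni (G.map (algebraMap R F)) π := by
  refine locUni_of hG (J := Empty) (fun j => j.elim) (fun j => j.elim) (fun j => j.elim) h ?_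
  intro v hv1 _
  choose g hg using hv1
  have h1 := cramerInv G v g (funext hg).symm
  refine Submodule.mem_sup_left ?_
  rw [mem_lam0]
  refine ⟨G.adjugate *ᵥ g, fun i => ?_⟩
  rw [← h1 i, Pi.smul_apply, Algebra.smul_def]

/-- the lattice at a prime factor of the multiplier -/
theorem loc_pi {N : Matrix n n R} {M : Matrix m m R} (hN : N.IsSymm) (hM : M.IsSymm)
    {π μ μ' : R} (hπ : Prime π) (hμ : μ = π * μ') (hμ' : ¬ π ∣ μ') (hN' : ¬ π ∣ N.det)
    (hM' : ¬ π ∣ M.det) {J : Type*} [Fintype J] (u : J → m → R)
    (h1 : ∀ i j, π ∣ u i ⬝ᵥ M *ᵥ u j)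
    (h2 : ∀ z : m → R, (∀ i, π ∣ u i ⬝ᵥ M *ᵥ z) →
      ∃ c : J → R, ∀ a, π ∣ z a - ∑ i, c i * u i a) :
    LocUni ((fromBlocks N 0 0 (-(μ • M))).map (algebraMap R F)) π := by
  have hinj : Function.Injective (algebraMap R F) := IsFractionRing.injective R F
  have hπF : algebraMap R F π ≠ 0 := by
    rw [Ne, map_eq_zero_iff _ hinj]; exact hπ.ne_zero
  set G := fromBlocks N 0 0 (-(μ • M)) with hG
  set e : J → (n ⊕ m → R) := fun i => Sum.elim 0 (u i) with he
  set g : J → (n ⊕ m → R) := fun i => Sum.elim 0 (-(μ' • (M *ᵥ u i))) with hg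
  have hGe : ∀ i a, (G *ᵥ e i) a = π * g i a := by
    rintro i (a | a)
    · rw [hG, fromBlocks_mulVec]
      simp [he, hg, mulVec, dotProduct]
    · rw [hG, fromBlocks_mulVec]
      simp only [he, hg, Sum.elim_inr, Pi.add_apply, mulVec, dotProduct, Function.comp,
        Matrix.zero_apply, zero_mul, Finset.sum_const_zero, zero_add, Matrix.neg_apply,
        Matrix.smul_apply, Pi.neg_apply, Pi.smul_apply, smul_eq_mul, hμ, Finset.mul_sum, mul_neg]
      rw [← Finset.sum_neg_distrib]
      refine Finset.sum_congr rfl fun j _ => ?_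
      ring
  have heg : ∀ i j, e i ⬝ᵥ g j = -(μ' * (u i ⬝ᵥ M *ᵥ u j)) := by
    intro i j
    simp only [he, hg, dotProduct, Fintype.sum_sum_type, Sum.elim_inl, Sum.elim_inr, Pi.zero_apply,
      mul_zero, Finset.sum_const_zero, zero_add, Pi.neg_apply, Pi.smul_apply, smul_eq_mul,
      Finset.mul_sum]
    rw [← Finset.sum_neg_distrib]
    refine Finset.sum_congr rfl fun a _ => ?_
    rw [mul_neg]
    congr 1
    simp only [mulVec, dotProduct, Finset.mul_sum]
    refine Finset.sum_congr rfl fun b _ => ?_
    ring
  set w : J → (n ⊕ m → F) := fun i a => (algebraMap R F π)⁻¹ * algebraMap R F (e i a) with hw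
  have hwe : ∀ i, w i = (algebraMap R F π)⁻¹ • (fun a => algebraMap R F (e i a)) := fun i => rfl
  have hGw : ∀ i a, (G.map (algebraMap R F) *ᵥ w i) a = algebraMap R F (g i a) := by
    intro i a
    rw [hwe i, mulVec_smul, mulVec_map', Pi.smul_apply, hGe, map_mul, smul_eq_mul,
      inv_mul_cancel_left₀ hπF]
  refine locUni_of (block_symm hN hM μ) w (fun i a => ⟨g i a, (hGw i a).symm⟩) (fun i j => ?_)
    (s := N.det * (μ' * M.det)) ?_ ?_
  · obtain ⟨q, hq⟩ := h1 i j
    refine ⟨-(μ' * q), ?_⟩
    have : G.map (algebraMap R F) *ᵥ w j = fun a => algebraMap R F (g j a) := funext (hGw j)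
    rw [this, hwe i, smul_dotProduct, dot_map, heg, hq, smul_eq_mul]
    have e1 : -(μ' * (π * q)) = π * (-(μ' * q)) := by ring
    rw [e1, map_mul (algebraMap R F) π, inv_mul_cancel_left₀ hπF]
  · intro hdvd
    rcases hπ.dvd_or_dvd hdvd with h' | h'
    · exact hN' h'
    · rcases hπ.dvd_or_dvd h' with h' | h'
      · exact hμ' h'
      · exact hM' h'
  · intro v hv1 hv2
    choose g' hg' using hv1
    have hGv : G.map (algebraMap R F) *ᵥ v = fun i => algebraMap R F (g' i) :=
      (funext hg').symm
    have hv2' : ∀ i, π ∣ u i ⬝ᵥ (g' ∘ Sum.inr) := by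
      intro i
      obtain ⟨r, hr⟩ := hv2 i
      rw [hGv, hwe i, smul_dotProduct, dot_map, smul_eq_mul] at hr
      refine ⟨r, ?_⟩
      apply hinj
      rw [map_mul, hr, mul_inv_cancel_left₀ hπF]
      congr 1
      simp [he, dotProduct, Fintype.sum_sum_type]
    -- the two components
    have hv1 : N.map (algebraMap R F) *ᵥ (v ∘ Sum.inl) =
        fun i => algebraMap R F (g' (Sum.inl i)) := by
      funext i
      have h0 := hg' (Sum.inl i)
      rw [h0, fromBlocks_map, fromBlocks_mulVec]
      simp [mulVec, dotProduct]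
    have hv2 : M.map (algebraMap R F) *ᵥ (algebraMap R F (-μ) • (v ∘ Sum.inr)) =
        fun i => algebraMap R F (g' (Sum.inr i)) := by
      funext i
      have h0 := hg' (Sum.inr i)
      rw [h0, fromBlocks_map, fromBlocks_mulVec]
      simp only [mulVec, dotProduct, Function.comp, Sum.elim_inr, Pi.add_apply, Matrix.map_apply,
        Matrix.zero_apply, map_zero, zero_mul, Finset.sum_const_zero, zero_add, Matrix.neg_apply,
        Matrix.smul_apply, smul_eq_mul, map_neg, map_mul, Pi.smul_apply]
      refine Finset.sum_congr rfl fun j _ => ?_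
      ring
    have hc1 := cramerInv N _ _ hv1
    have hc2 := cramerInv M _ _ hv2
    set z : m → R := M.adjugate *ᵥ (g' ∘ Sum.inr) with hz
    have hz1 : ∀ i, π ∣ u i ⬝ᵥ M *ᵥ z := by
      intro i
      rw [hz, mulVec_mulVec, mul_adjugate, smul_mulVec, one_mulVec, dotProduct_smul, smul_eq_mul]
      exact Dvd.dvd.mul_left (hv2' i) _
    obtain ⟨c, hc⟩ := h2 z hz1
    choose q hq using hc
    rw [Submodule.mem_sup]
    refine ⟨fun a => algebraMap R F (Sum.elim
      (fun i => μ' * M.det * (N.adjugate *ᵥ (g' ∘ Sum.inl)) i)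
      (fun j => -(N.det * q j)) a), ?_, ∑ i, (-(N.det * c i)) • w i, ?_, ?_⟩
    · rw [mem_lam0]
      exact ⟨_, fun i => rfl⟩
    · exact Submodule.sum_mem _ fun i _ => Submodule.smul_mem _ _ (Submodule.subset_span ⟨i, rfl⟩)
    · funext a
      apply mul_left_cancel₀ hπF
      rw [Pi.add_apply, Finset.sum_apply, Pi.smul_apply, Algebra.smul_def]
      rcases a with a | a
      · have e1 : ∀ i, ((-(N.det * c i)) • w i) (Sum.inl a) = 0 := by
          intro i
          rw [Pi.smul_apply]
          simp [hw, he]
        rw [Finset.sum_congr rfl fun i _ => e1 i, Finset.sum_const_zero, add_zero, Sum.elim_inl]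
        have := hc1 a
        have e2 : (N.adjugate *ᵥ (g' ∘ Sum.inl)) a =
          (N.adjugate *ᵥ fun i => g' (Sum.inl i)) a := rfl
        rw [e2, map_mul (algebraMap R F) (μ' * M.det), ← this]
        simp only [map_mul, Function.comp]
        ring
      · have e1 : ∀ i, algebraMap R F π * ((-(N.det * c i)) • w i) (Sum.inr a) =
            algebraMap R F (-(N.det * c i) * u i a) := by
          intro i
          rw [Pi.smul_apply, Algebra.smul_def]
          simp only [hw, he, Sum.elim_inr]
          rw [map_mul (algebraMap R F) (-(N.det * c i))]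
          field_simp
        rw [mul_add, Finset.mul_sum, Finset.sum_congr rfl fun i _ => e1 i, ← map_sum, Sum.elim_inr]
        have := hc2 a
        have e2 : (M.adjugate *ᵥ fun i => g' (Sum.inr i)) a = z a := rfl
        rw [e2] at this
        have e3 : algebraMap R F π * (algebraMap R F (N.det * (μ' * M.det)) * v (Sum.inr a)) =
            algebraMap R F (-(N.det * z a)) := by
          rw [map_neg, map_mul (algebraMap R F) N.det (z a), ← this]
          simp only [hμ, map_mul, map_neg, Function.comp, Pi.smul_apply, smul_eq_mul]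
          ring
        rw [e3, ← map_mul, ← map_add]
        congr 1
        have h5 := hq a
        have e4 : ∑ i, -(N.det * c i) * u i a = -(N.det * ∑ i, c i * u i a) := by
          rw [Finset.mul_sum, ← Finset.sum_neg_distrib]
          refine Finset.sum_congr rfl fun i _ => ?_
          ring
        rw [e4]
        linear_combination N.det * h5

end Delta

end Pool.Agent.Helper64.HA
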