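import Pool.Agent.Helper64.HA.Gen

set_option autoImplicit false
set_option linter.unusedSectionVars false
set_option linter.unusedVariables false

/-!
Two quadric surfaces over `C(x, y)` with the same discriminant and the same residues are similar
or isotropic.
-/

namespace Pool.Agent.Helper64.HA

open Matrix Module Pool.Agent.Helper27.PUR Pool.Agent.Helper29.HP

/-- a Lagrangian for `N - μ N'` with `N` anisotropic is the graph of a similitude -/
theorem graph44 {F : Type} [Field F] {n : Type} [Fintype n] [DecidableEq n]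
    (N N' : Matrix n n F) (μ : F) (hμ : μ ≠ 0) (hd' : N'.det ≠ 0)
    (hmeta : Mtb (fromBlocks N 0 0 (-(μ • N')))) :
    (∃ y : n → F, y ≠ 0 ∧ y ⬝ᵥ N *ᵥ y = 0) ∨
    ∃ (Ψ : Matrix n n F), Ψ.det ≠ 0 ∧ Ψᵀ * N * Ψ = μ • N' := by
  by_cases hiso : ∃ y : n → F, y ≠ 0 ∧ y ⬝ᵥ N *ᵥ y = 0
  · exact Or.inl hiso
  right
  push Not at hiso
  obtain ⟨L, hL1, hL2⟩ := hmeta
  -- the form on pairs
  have hform : ∀ u v : n ⊕ n → F, u ⬝ᵥ (fromBlocks N 0 0 (-(μ • N'))) *ᵥ v =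
      (u ∘ Sum.inl) ⬝ᵥ N *ᵥ (v ∘ Sum.inl) - μ * ((u ∘ Sum.inr) ⬝ᵥ N' *ᵥ (v ∘ Sum.inr)) := by
    intro u v
    have hu : u = Sum.elim (u ∘ Sum.inl) (u ∘ Sum.inr) := by
      funext i; rcases i with i | i <;> rfl
    rw [fromBlocks_mulVec]
    conv_lhs => rw [hu]
    rw [sumElim_dotProduct_sumElim]
    simp only [zero_mulVec, add_zero, zero_add, neg_mulVec, smul_mulVec, dotProduct_neg,
      dotProduct_smul, smul_eq_mul]
    ring
  let p1 : (n ⊕ n → F) →ₗ[F] (n → F) := LinearMap.funLeft F F Sum.inl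
  let p2 : (n ⊕ n → F) →ₗ[F] (n → F) := LinearMap.funLeft F F Sum.inr
  have hp1 : ∀ u, p1 u = u ∘ Sum.inl := fun u => rfl
  have hp2 : ∀ u, p2 u = u ∘ Sum.inr := fun u => rfl
  let f : L →ₗ[F] (n → F) := p2.domRestrict L
  have hf : ∀ x : L, f x = (x : n ⊕ n → F) ∘ Sum.inr := fun x => rfl
  have hinj : Function.Injective f := by
    rw [← LinearMap.ker_eq_bot, eq_bot_iff]
    intro x hx
    rw [LinearMap.mem_ker, hf] at hx
    have h1 := hL2 x.1 x.2 x.1 x.2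
    rw [hform, hx] at h1
    simp only [mulVec_zero, dotProduct_zero, mul_zero, sub_zero] at h1
    have h2 : (x : n ⊕ n → F) ∘ Sum.inl = 0 := by
      by_contra h3
      exact hiso _ h3 h1
    rw [Submodule.mem_bot]
    apply Subtype.ext
    funext i
    rcases i with i | i
    · exact congrFun h2 i
    · exact congrFun hx i
  have hfin : finrank F L = finrank F (n → F) := by
    apply le_antisymm (LinearMap.finrank_le_finrank_of_injective hinj)
    rw [Module.finrank_fintype_fun_eq_card]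
    rw [Fintype.card_sum] at hL1
    omega
  let e : L ≃ₗ[F] (n → F) := LinearEquiv.ofInjectiveOfFinrankEq f hinj hfin
  have he : ∀ x : L, e x = (x : n ⊕ n → F) ∘ Sum.inr := fun x => rfl
  let g : (n → F) →ₗ[F] (n → F) := p1.comp (L.subtype.comp e.symm.toLinearMap)
  have hg : ∀ w, g w = (e.symm w : n ⊕ n → F) ∘ Sum.inl := fun w => rfl
  have hg2 : ∀ w, (e.symm w : n ⊕ n → F) ∘ Sum.inr = w := by
    intro w
    rw [← he, LinearEquiv.apply_symm_apply]
  have hgg : ∀ w w', g w ⬝ᵥ N *ᵥ g w' = μ * (w ⬝ᵥ N' *ᵥ w') := by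
    intro w w'
    have h1 := hL2 _ (e.symm w).2 _ (e.symm w').2
    rw [hform, hg2, hg2, ← hg, ← hg] at h1
    exact sub_eq_zero.mp h1
  set Ψ : Matrix n n F := LinearMap.toMatrix' g with hΨ
  have hΨg : ∀ w, Ψ *ᵥ w = g w := by
    intro w
    rw [hΨ, LinearMap.toMatrix'_mulVec]
  refine ⟨Ψ, ?_, ?_⟩
  · intro h0
    obtain ⟨w, hw0, hw⟩ := Matrix.exists_mulVec_eq_zero_iff.mpr h0
    rw [hΨg] at hw
    apply hw0
    refine eq_zero_of_mulVec_eq_zero hd' ?_
    funext i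
    have h1 := hgg (Pi.single i 1) w
    rw [hw, mulVec_zero, dotProduct_zero, single_one_dotProduct] at h1
    exact (mul_eq_zero.mp h1.symm).resolve_left hμ
  · ext i j
    have h1 := hgg (Pi.single i 1) (Pi.single j 1)
    rw [← hΨg, ← hΨg] at h1
    have h2 : ∀ M : Matrix n n F, (Pi.single i 1 : n → F) ⬝ᵥ M *ᵥ (Pi.single j 1) = M i j := by
      intro M
      rw [single_one_dotProduct, mulVec_single_one, Matrix.col_apply]
    have h3 : (Ψ *ᵥ Pi.single i 1) ⬝ᵥ N *ᵥ (Ψ *ᵥ Pi.single j 1) = (Ψᵀ * N * Ψ) i j := by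
      rw [← h2 (Ψᵀ * N * Ψ), ← mulVec_mulVec, ← mulVec_mulVec]
      rw [dotProduct_mulVec (Pi.single i 1), vecMul_transpose]
    rw [← h3, h1, h2, Matrix.smul_apply, smul_eq_mul]

/-- **P44** -/
theorem p44 (N N' : Matrix (Fin 4) (Fin 4) AA) (hN : N.IsSymm) (hN' : N'.IsSymm) (δ μ s : AA)
    (hδ : Prime δ) (hd : N.det = δ) (hd' : N'.det = δ) (hμ : μ ≠ 0) (hμδ : ¬ δ ∣ μ)
    (hsp : ∀ π : AA, Prime π → π ∣ μ → ∃ g h : AA, ¬ π ∣ h ∧ π ∣ g ^ 2 - δ * h ^ 2)
    (i j : Fin 4) (hi : ¬ δ ∣ N.adjugate i i) (hj : ¬ δ ∣ N'.adjugate j j)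
    (hs : δ ∣ s ^ 2 - μ * N.adjugate i i * N'.adjugate j j) :
    (∃ y : Fin 4 → KK, y ≠ 0 ∧ y ⬝ᵥ (N.map (algebraMap AA KK)).mulVec y = 0) ∨
    ∃ (Ψ : Matrix (Fin 4) (Fin 4) KK) (ν : KK), Ψ.det ≠ 0 ∧ ν ≠ 0 ∧
      Ψᵀ * N.map (algebraMap AA KK) * Ψ = ν • N'.map (algebraMap AA KK) := by
  have hmeta := meta_gen (n := Fin 4) (m := Fin 4) (by decide) (by decide) N N' hN hN' δ μ s hδ hd
    hd' hμ hμδ hsp i j hi hj hs
  have hinj := IsFractionRing.injective AA KK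
  have hμF : algebraMap AA KK μ ≠ 0 := by
    rw [Ne, map_eq_zero_iff _ hinj]; exact hμ
  have hb : (fromBlocks N 0 0 (-(μ • N'))).map (algebraMap AA KK) =
      fromBlocks (N.map (algebraMap AA KK)) 0 0
        (-(algebraMap AA KK μ • N'.map (algebraMap AA KK))) := by
    rw [fromBlocks_map]
    congr 1
    · ext i j; simp
    · ext i j; simp
    · ext i j
      rw [Matrix.neg_apply, Matrix.smul_apply, Matrix.map_apply, Matrix.map_apply,
        Matrix.neg_apply, Matrix.smul_apply, smul_eq_mul, smul_eq_mul, map_neg, map_mul]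
  rw [hb] at hmeta
  have hdet : (N'.map (algebraMap AA KK)).det ≠ 0 := by
    rw [← RingHom.mapMatrix_apply, ← RingHom.map_det, hd', Ne, map_eq_zero_iff _ hinj]
    exact hδ.ne_zero
  rcases graph44 _ _ _ hμF hdet hmeta with h | ⟨Ψ, h1, h2⟩
  · exact Or.inl h
  · exact Or.inr ⟨Ψ, _, h1, hμF, h2⟩

end Pool.Agent.Helper64.HA
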